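import Mathlib

set_option autoImplicit false

/-! # A form of the Littlewood-Offord inequality -/

namespace Pool.Agent.L0h73.LT

open Finset

/-- Sperner's theorem and sums of two-valued variables. -/
theorem sperner_sum {ι : Type} [DecidableEq ι] (I : Finset ι) (u v : ι → ℝ) {d p : ℝ}
    (h : ∀ i ∈ I, d ≤ |v i - u i|) (c : ℝ) :
    (I.powerset.filter (fun E => p < c + ∑ i ∈ I, (if i ∈ E then v i else u i) ∧
      c + ∑ i ∈ I, (if i ∈ E then v i else u i) ≤ p + d)).card ≤ I.card.choose (I.card / 2) := by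
  classical
  set F : Finset ι → Finset I := fun E => univ.filter (fun i => (i.1 ∈ E ↔ u i ≤ v i)) with hF
  set 𝒜 := I.powerset.filter (fun E => p < c + ∑ i ∈ I, (if i ∈ E then v i else u i) ∧
      c + ∑ i ∈ I, (if i ∈ E then v i else u i) ≤ p + d) with h𝒜
  have hmem : ∀ E (i : I), i ∈ F E ↔ (i.1 ∈ E ↔ u i ≤ v i) := by
    intro E i; simp [hF]
  have hinj : Set.InjOn F (𝒜 : Set (Finset ι)) := by
    intro E hE E' hE' heq
    rw [mem_coe, h𝒜, mem_filter, mem_powerset] at hE hE'
    ext i
    by_cases hi : i ∈ I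
    · have h1 := hmem E ⟨i, hi⟩
      have h2 := hmem E' ⟨i, hi⟩
      rw [heq] at h1
      simp only at h1 h2
      tauto
    · exact ⟨fun h => absurd (hE.1 h) hi, fun h => absurd (hE'.1 h) hi⟩
  have hval : ∀ E, ∑ i ∈ I, (if i ∈ E then v i else u i) =
      ∑ i : I, (if i ∈ F E then max (u i) (v i) else min (u i) (v i)) := by
    intro E
    rw [← Finset.sum_coe_sort I]
    apply sum_congr rfl
    intro i _
    by_cases h1 : i.1 ∈ E <;> by_cases h2 : u i ≤ v i
    · rw [if_pos h1, if_pos ((hmem E i).2 (by tauto)), max_eq_right h2]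
    · rw [if_pos h1, if_neg (fun h => by have := (hmem E i).1 h; tauto)]
      rw [min_eq_right (le_of_not_ge h2)]
    · rw [if_neg h1, if_neg (fun h => by have := (hmem E i).1 h; tauto), min_eq_left h2]
    · rw [if_neg h1, if_pos ((hmem E i).2 (by tauto)), max_eq_left (le_of_not_ge h2)]
  have hanti : IsAntichain (· ⊆ ·) ((𝒜.image F : Finset (Finset I)) : Set (Finset I)) := by
    intro X hX Y hY hne hsub
    rw [mem_coe, mem_image] at hX hY
    obtain ⟨E, hE, rfl⟩ := hX
    obtain ⟨E', hE', rfl⟩ := hY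
    rw [h𝒜, mem_filter] at hE hE'
    have hss : F E ⊂ F E' := hsub.ssubset_of_ne hne
    obtain ⟨j, hj1, hj2⟩ := exists_of_ssubset hss
    have h1 : ∑ i : I, (if i ∈ F E then max (u i) (v i) else min (u i) (v i)) + d ≤
        ∑ i : I, (if i ∈ F E' then max (u i) (v i) else min (u i) (v i)) := by
      rw [← Finset.add_sum_erase univ _ (mem_univ j), ← Finset.add_sum_erase univ _ (mem_univ j)]
      rw [if_neg hj2, if_pos hj1]
      have h3 : d ≤ max (u j) (v j) - min (u j) (v j) := by
        rw [max_sub_min_eq_abs]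
        exact h j j.2
      have h4 : ∑ i ∈ univ.erase j, (if i ∈ F E then max (u i) (v i) else min (u i) (v i)) ≤
          ∑ i ∈ univ.erase j, (if i ∈ F E' then max (u i) (v i) else min (u i) (v i)) := by
        apply sum_le_sum
        intro i _
        by_cases hi : i ∈ F E
        · rw [if_pos hi, if_pos (hsub hi)]
        · rw [if_neg hi]
          split_ifs
          · exact min_le_max
          · exact le_rfl
      linarith
    rw [← hval, ← hval] at h1
    linarith [hE.2.1, hE'.2.2]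
  have h5 := hanti.sperner
  rw [card_image_of_injOn hinj, Fintype.card_coe] at h5
  exact h5

/-- The Littlewood-Offord inequality for independent variables. The `i`-th variable takes the values
`f i w`, `w` in a finite set with a permutation which changes the value by at least `d`. -/
theorem littlewood_offord {n : ℕ} {Ω : Type} [Fintype Ω] (f : Fin n → Ω → ℝ)
    (σ : Fin n → Equiv.Perm Ω) (I : Finset (Fin n)) {d p : ℝ}
    (h : ∀ i ∈ I, ∀ w, d ≤ |f i (σ i w) - f i w|) :
    (univ.filter (fun ω : Fin n → Ω => p < ∑ i, f i (ω i) ∧ ∑ i, f i (ω i) ≤ p + d)).card *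
      2 ^ I.card ≤ I.card.choose (I.card / 2) * Fintype.card (Fin n → Ω) := by
  classical
  set P : (Fin n → Ω) → Prop := fun ω => p < ∑ i, f i (ω i) ∧ ∑ i, f i (ω i) ≤ p + d with hP
  set e : Finset (Fin n) → Equiv.Perm (Fin n → Ω) := fun E =>
    Equiv.piCongrRight (fun i => if i ∈ E then σ i else Equiv.refl Ω) with he
  have he1 : ∀ E ω i, e E ω i = if i ∈ E then σ i (ω i) else ω i := by
    intro E ω i
    simp only [he, Equiv.piCongrRight_apply, Pi.map_apply]
    split_ifs <;> rfl
  have h1 : ∑ E ∈ I.powerset, ∑ ω : Fin n → Ω, (if P (e E ω) then 1 else 0 : ℕ) =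
      2 ^ I.card * (univ.filter P).card := by
    rw [← card_powerset, ← smul_eq_mul, ← sum_const]
    apply sum_congr rfl
    intro E _
    rw [Equiv.sum_comp (e E) (fun ω => (if P ω then 1 else 0 : ℕ)), card_filter]
  have h2 : ∀ ω : Fin n → Ω, ∑ E ∈ I.powerset, (if P (e E ω) then 1 else 0 : ℕ) ≤
      I.card.choose (I.card / 2) := by
    intro ω
    rw [← card_filter]
    have h3 := sperner_sum I (fun i => f i (ω i)) (fun i => f i (σ i (ω i))) (p := p)
      (fun i hi => h i hi (ω i)) (∑ i ∈ univ \ I, f i (ω i))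
    refine le_trans (le_of_eq ?_) h3
    congr 1
    apply filter_congr
    intro E hE
    rw [mem_powerset] at hE
    have h4 : ∑ i, f i (e E ω i) = ∑ i ∈ univ \ I, f i (ω i) +
        ∑ i ∈ I, (if i ∈ E then f i (σ i (ω i)) else f i (ω i)) := by
      rw [← Finset.sum_sdiff (subset_univ I)]
      congr 1
      · apply sum_congr rfl
        intro i hi
        rw [he1, if_neg (fun h => (mem_sdiff.1 hi).2 (hE h))]
      · apply sum_congr rfl
        intro i hi
        rw [he1]
        split_ifs <;> rfl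
    simp only [hP]
    rw [h4]
  have h3 : ∑ E ∈ I.powerset, ∑ ω : Fin n → Ω, (if P (e E ω) then 1 else 0 : ℕ) ≤
      Fintype.card (Fin n → Ω) * I.card.choose (I.card / 2) := by
    rw [sum_comm]
    calc _ ≤ ∑ _ω : Fin n → Ω, I.card.choose (I.card / 2) := sum_le_sum fun ω _ => h2 ω
      _ = _ := by rw [sum_const, card_univ, smul_eq_mul]
  rw [h1] at h3
  rw [mul_comm, mul_comm (Nat.choose _ _)]
  exact h3

/-- central binomial coefficients -/
theorem centralBinom_sq (m : ℕ) : m.centralBinom ^ 2 * (2 * m + 1) ≤ 16 ^ m := by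
  induction m with
  | zero => simp
  | succ m ih =>
    have h1 := Nat.succ_mul_centralBinom_succ m
    have h2 : ((m + 1) * (m + 1).centralBinom) ^ 2 * (2 * (m + 1) + 1) ≤
        (m + 1) ^ 2 * 16 ^ (m + 1) := by
      rw [h1]
      calc (2 * (2 * m + 1) * m.centralBinom) ^ 2 * (2 * (m + 1) + 1)
          = (m.centralBinom ^ 2 * (2 * m + 1)) * (4 * ((2 * m + 1) * (2 * m + 3))) := by ring
        _ ≤ 16 ^ m * (4 * ((2 * m + 1) * (2 * m + 3))) := Nat.mul_le_mul_right _ ih
        _ ≤ 16 ^ m * (16 * (m + 1) ^ 2) := by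
            apply Nat.mul_le_mul_left
            nlinarith
        _ = (m + 1) ^ 2 * 16 ^ (m + 1) := by ring
    have h3 : (m + 1) ^ 2 * ((m + 1).centralBinom ^ 2 * (2 * (m + 1) + 1)) ≤
        (m + 1) ^ 2 * 16 ^ (m + 1) := by
      calc _ = ((m + 1) * (m + 1).centralBinom) ^ 2 * (2 * (m + 1) + 1) := by ring
        _ ≤ _ := h2
    exact Nat.le_of_mul_le_mul_left h3 (by positivity)

theorem choose_half_sq (r : ℕ) : r.choose (r / 2) ^ 2 * (r + 1) ≤ 4 ^ r := by
  rcases Nat.even_or_odd' r with ⟨m, rfl | rfl⟩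
  · have h1 := centralBinom_sq m
    rw [Nat.mul_div_cancel_left m (by norm_num), pow_mul]
    exact h1
  · have h1 := centralBinom_sq (m + 1)
    have h2 : (m + 1).centralBinom = 2 * (2 * m + 1).choose m := by
      rw [Nat.centralBinom]
      have e : 2 * (m + 1) = (2 * m + 1) + 1 := by ring
      rw [e, Nat.choose_succ_succ, Nat.succ_eq_add_one, Nat.choose_symm_half m]
      ring
    have e2 : (2 * m + 1) / 2 = m := by omega
    rw [e2]
    rw [h2] at h1
    have h4 : 4 * ((2 * m + 1).choose m ^ 2 * (2 * m + 1 + 1)) ≤ 4 * 4 ^ (2 * m + 1) := by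
      calc 4 * ((2 * m + 1).choose m ^ 2 * (2 * m + 1 + 1))
          ≤ 4 * ((2 * m + 1).choose m ^ 2 * (2 * (m + 1) + 1)) := by
            apply Nat.mul_le_mul_left
            apply Nat.mul_le_mul_left
            omega
        _ = (2 * (2 * m + 1).choose m) ^ 2 * (2 * (m + 1) + 1) := by ring
        _ ≤ 16 ^ (m + 1) := h1
        _ = 4 * 4 ^ (2 * m + 1) := by
            rw [show (16:ℕ) = 4 ^ 2 by norm_num, ← pow_mul, ← pow_succ']
            congr 1
    omega

theorem choose_half_le (r : ℕ) : (r.choose (r / 2) : ℝ) / 2 ^ r ≤ 1 / √((r : ℝ) + 1) := by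
  have h1 : ((r.choose (r / 2) : ℝ)) ^ 2 * (r + 1) ≤ (2 ^ r) ^ 2 := by
    have h2 := choose_half_sq r
    have h3 : (((r.choose (r / 2)) ^ 2 * (r + 1) : ℕ) : ℝ) ≤ ((4 ^ r : ℕ) : ℝ) := by exact_mod_cast h2
    push_cast at h3
    rw [← pow_mul, mul_comm r 2, pow_mul]
    norm_num at h3 ⊢
    exact h3
  have hs : 0 < √((r : ℝ) + 1) := Real.sqrt_pos.2 (by positivity)
  rw [div_le_div_iff₀ (by positivity) hs]
  have h4 : (r.choose (r / 2) : ℝ) * √((r : ℝ) + 1) ≤ 2 ^ r := by
    apply le_of_sq_le_sq _ (by positivity)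
    rw [mul_pow, Real.sq_sqrt (by positivity)]
    exact h1
  linarith

/-- summation over the ranks -/
theorem rank_sum {ι : Type} [DecidableEq ι] (d : ι → ℝ) (g : ℕ → ℝ) (hg : Antitone g) :
    ∀ (m : ℕ) (I : Finset ι), I.card = m →
    ∑ i ∈ I, g ((I.filter (fun j => j ≠ i ∧ d i ≤ d j)).card) ≤ ∑ j ∈ range m, g j := by
  intro m
  induction m with
  | zero =>
    intro I hI
    rw [card_eq_zero] at hI
    simp [hI]
  | succ m ih =>
    intro I hI
    have hne : I.Nonempty := by rw [← card_pos]; omega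
    obtain ⟨a, ha, hmin⟩ := exists_min_image I d hne
    have h1 := ih (I.erase a) (by rw [card_erase_of_mem ha]; omega)
    rw [← Finset.add_sum_erase I _ ha, sum_range_succ, add_comm]
    apply add_le_add
    · refine le_trans ?_ h1
      apply sum_le_sum
      intro i hi
      apply hg
      apply card_le_card
      apply filter_subset_filter
      exact erase_subset _ _
    · apply hg
      have h2 : I.erase a ⊆ I.filter (fun j => j ≠ a ∧ d a ≤ d j) := by
        intro j hj
        rw [mem_erase] at hj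
        rw [mem_filter]
        exact ⟨hj.2, hj.1, hmin j hj.2⟩
      have h3 := card_le_card h2
      rw [card_erase_of_mem ha] at h3
      omega

theorem sum_inv_sqrt (m : ℕ) : ∑ j ∈ range m, 1 / √((j : ℝ) + 1) ≤ 2 * √(m : ℝ) := by
  induction m with
  | zero => simp
  | succ m ih =>
    rw [sum_range_succ]
    have h0 : 0 ≤ √(m : ℝ) := Real.sqrt_nonneg _
    have h1 : 0 < √((m : ℝ) + 1) := Real.sqrt_pos.2 (by positivity)
    have h2 : √(m : ℝ) ≤ √((m : ℝ) + 1) := Real.sqrt_le_sqrt (by linarith)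
    have h3 : √((m : ℝ) + 1) ^ 2 = m + 1 := Real.sq_sqrt (by positivity)
    have h4 : √(m : ℝ) ^ 2 = m := Real.sq_sqrt (by positivity)
    have h5 : 1 / √((m : ℝ) + 1) ≤ 2 * (√((m : ℝ) + 1) - √(m : ℝ)) := by
      rw [div_le_iff₀ h1]
      nlinarith
    push_cast
    linarith

end Pool.Agent.L0h73.LT
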