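import Pool.Agent.L0h73.LT.Alive

set_option autoImplicit false

/-! # The counting argument -/

namespace Pool.Agent.L0h73.LT

open Finset Pool.Agent.TH697.Form.ThreeSum

/-- There are few threshold functions of a fixed function. -/
theorem chain {Y : Type} [Fintype Y] (ψ : Y → ℝ) :
    ∃ Ch : Finset (Y → Bool), Ch.card ≤ Fintype.card Y + 1 ∧
      ∀ c : ℝ, (fun y => decide (c < ψ y)) ∈ Ch := by
  classical
  refine ⟨(range (Fintype.card Y + 1)).image (fun m =>
    if h : ∃ c : ℝ, (univ.filter (fun y => c < ψ y)).card = m then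
      (fun y => decide (h.choose < ψ y)) else fun _ => false), ?_, ?_⟩
  · refine card_image_le.trans ?_
    rw [card_range]
  · intro c
    rw [mem_image]
    refine ⟨(univ.filter (fun y => c < ψ y)).card, ?_, ?_⟩
    · rw [mem_range]
      have := card_le_univ (univ.filter (fun y => c < ψ y))
      omega
    · have h : ∃ c' : ℝ, (univ.filter (fun y => c' < ψ y)).card =
          (univ.filter (fun y => c < ψ y)).card := ⟨c, rfl⟩
      rw [dif_pos h]
      have h1 := h.choose_spec
      set c' := h.choose with hc'
      have h2 : univ.filter (fun y => c' < ψ y) = univ.filter (fun y => c < ψ y) := by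
        rcases le_total c' c with h3 | h3
        · refine (eq_of_subset_of_card_le ?_ h1.le).symm
          intro y hy
          rw [mem_filter] at hy ⊢
          exact ⟨mem_univ _, lt_of_le_of_lt h3 hy.2⟩
        · refine eq_of_subset_of_card_le ?_ h1.ge
          intro y hy
          rw [mem_filter] at hy ⊢
          exact ⟨mem_univ _, lt_of_le_of_lt h3 hy.2⟩
      funext y
      have h3 : y ∈ univ.filter (fun y => c' < ψ y) ↔ y ∈ univ.filter (fun y => c < ψ y) := by
        rw [h2]
      simp only [mem_filter, mem_univ, true_and] at h3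
      exact decide_eq_decide.2 h3

open Classical in
/-- the weighted counting argument -/
theorem wcoding {Y : Type} [Fintype Y] [DecidableEq Y] {s : ℕ} (W M : ℝ) (hW : 1 ≤ W) (hM : 0 < M)
    (F : Finset (Fin s) → Finset (Y → Bool))
    (hF : ∑ A : Finset (Fin s), ((F A).card : ℝ) * (1 / W) ^ A.card ≤ M)
    (A : (Y → Bool) → Finset (Fin s)) (f : (Y → Bool) → (Y → Bool)) (hf : ∀ z, f z ∈ F (A z)) :
    (Fintype.card Y : ℝ) * Real.log (4 / 3) ≤ Real.log M +
      (∑ z : Y → Bool, (Real.log 2 * ((univ.filter (fun y => f z y ≠ z y)).card : ℝ) +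
        Real.log W * ((A z).card : ℝ))) / 2 ^ Fintype.card Y := by
  obtain ⟨N, hN⟩ : ∃ N, N = Fintype.card Y := ⟨_, rfl⟩
  have hW0 : 0 < W := by linarith
  obtain ⟨err, herr⟩ : ∃ err : (Y → Bool) → Finset Y,
      err = fun z => univ.filter (fun y => f z y ≠ z y) := ⟨_, rfl⟩
  -- the sum of the weights
  have h1 : ∑ z : Y → Bool, (1 / W) ^ (A z).card * (1 / 2 : ℝ) ^ (err z).card ≤
      M * (3 / 2 : ℝ) ^ N := by
    have hinj : Function.Injective (fun z : Y → Bool => (A z, f z, err z)) := by
      intro z z' h
      simp only [Prod.mk.injEq] at h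
      obtain ⟨-, h1, h2⟩ := h
      funext y
      have h3 : y ∈ err z ↔ y ∈ err z' := by rw [h2]
      simp only [herr, mem_filter, mem_univ, true_and] at h3
      rw [h1] at h3
      cases h4 : f z' y <;> cases h5 : z y <;> cases h6 : z' y <;> simp_all
    have e1 : ∑ z : Y → Bool, (1 / W) ^ (A z).card * (1 / 2 : ℝ) ^ (err z).card =
        ∑ p ∈ (univ : Finset (Y → Bool)).image (fun z => (A z, f z, err z)),
          (1 / W) ^ p.1.card * (1 / 2 : ℝ) ^ (p.2.2.card) := by
      rw [sum_image (fun a _ b _ h => hinj h)]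
    rw [e1]
    calc _ ≤ ∑ p ∈ (univ : Finset (Finset (Fin s) × (Y → Bool) × Finset Y)).filter
            (fun p => p.2.1 ∈ F p.1), (1 / W) ^ p.1.card * (1 / 2 : ℝ) ^ (p.2.2.card) := by
          refine sum_le_sum_of_subset_of_nonneg ?_ (fun _ _ _ => by positivity)
          intro p hp
          rw [mem_image] at hp
          obtain ⟨z, -, rfl⟩ := hp
          rw [mem_filter]
          exact ⟨mem_univ _, hf z⟩
      _ = ∑ A : Finset (Fin s), ((F A).card : ℝ) * (1 / W) ^ A.card * (3 / 2 : ℝ) ^ N := by
          rw [sum_filter, ← univ_product_univ, sum_product]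
          apply sum_congr rfl
          intro A _
          rw [← univ_product_univ, sum_product]
          have e2 : ∀ g : Y → Bool, ∑ E : Finset Y, (if (A, g, E).2.1 ∈ F (A, g, E).1 then
              (1 / W) ^ (A, g, E).1.card * (1 / 2 : ℝ) ^ ((A, g, E).2.2.card) else 0) =
              if g ∈ F A then (1 / W) ^ A.card * (3 / 2 : ℝ) ^ N else 0 := by
            intro g
            by_cases hg : g ∈ F A
            · simp only [hg, if_true]
              rw [← mul_sum, Pool.Agent.TH697.Form.weight_sum (T := Y) _ rfl, hN]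
            · simp only [hg, if_false, sum_const_zero]
          rw [sum_congr rfl (fun g _ => e2 g), ← sum_filter, sum_const, nsmul_eq_mul]
          have e3 : univ.filter (fun g => g ∈ F A) = F A := by ext g; simp
          rw [e3]
          ring
      _ = (∑ A : Finset (Fin s), ((F A).card : ℝ) * (1 / W) ^ A.card) * (3 / 2 : ℝ) ^ N := by
          rw [sum_mul]
      _ ≤ _ := mul_le_mul_of_nonneg_right hF (by positivity)
  -- Jensen
  set c : (Y → Bool) → ℝ := fun z => Real.log 2 * ((err z).card : ℝ) +
    Real.log W * ((A z).card : ℝ) with hc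
  have h2 : Real.exp (-((∑ z : Y → Bool, c z) / 2 ^ N)) ≤
      (∑ z : Y → Bool, (1 / W) ^ (A z).card * (1 / 2 : ℝ) ^ (err z).card) / 2 ^ N := by
    have hj := convexOn_exp.map_sum_le (t := (univ : Finset (Y → Bool)))
      (w := fun _ => (1 / 2 ^ N : ℝ)) (p := fun z => -(c z))
      (fun _ _ => by positivity)
      (by rw [sum_const, card_univ, nsmul_eq_mul]; simp [hN]) (fun _ _ => Set.mem_univ _)
    simp only [smul_eq_mul] at hj
    have e1 : ∑ z : Y → Bool, 1 / 2 ^ N * -(c z) = -((∑ z : Y → Bool, c z) / 2 ^ N) := by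
      rw [sum_div, ← sum_neg_distrib]
      refine sum_congr rfl fun z _ => ?_
      ring
    have e2 : ∑ z : Y → Bool, 1 / 2 ^ N * Real.exp (-(c z)) =
        (∑ z : Y → Bool, (1 / W) ^ (A z).card * (1 / 2 : ℝ) ^ (err z).card) / 2 ^ N := by
      rw [sum_div]
      refine sum_congr rfl fun z _ => ?_
      have e3 : Real.exp (-(c z)) = (1 / W) ^ (A z).card * (1 / 2 : ℝ) ^ (err z).card := by
        rw [show -(c z) = ((A z).card : ℝ) * (-Real.log W) + ((err z).card : ℝ) * (-Real.log 2) by
          rw [hc]; ring, Real.exp_add, Real.exp_nat_mul, Real.exp_nat_mul, Real.exp_neg,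
          Real.exp_neg, Real.exp_log hW0, Real.exp_log (by norm_num : (0 : ℝ) < 2)]
        norm_num
      rw [e3]
      ring
    rw [e1, e2] at hj
    exact hj
  have h3 : Real.exp (-((∑ z : Y → Bool, c z) / 2 ^ N)) ≤ M * (3 / 2 : ℝ) ^ N / 2 ^ N :=
    h2.trans (div_le_div_of_nonneg_right h1 (by positivity))
  have h4 := (Real.le_log_iff_exp_le (by positivity)).2 h3
  have h5 : Real.log (M * (3 / 2 : ℝ) ^ N / 2 ^ N) = Real.log M - N * Real.log (4 / 3) := by
    rw [Real.log_div (by positivity) (by positivity), Real.log_mul (by positivity) (by positivity),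
      Real.log_pow, Real.log_pow, Real.log_div (by norm_num) (by norm_num),
      Real.log_div (by norm_num) (by norm_num),
      show (4 : ℝ) = 2 ^ 2 by norm_num, Real.log_pow]
    push_cast
    ring
  rw [h5] at h4
  simp only [hc, herr] at h4
  rw [← hN]
  linarith

theorem sum_card_pow (s : ℕ) (x : ℝ) : ∑ A : Finset (Fin s), x ^ A.card = (1 + x) ^ s := by
  have h := Fintype.sum_pow_mul_eq_add_pow (Fin s) x (1 : ℝ)
  simp only [one_pow, mul_one, Fintype.card_fin] at h
  rw [h, add_comm]

theorem pow_le_three (s : ℕ) : (1 + 1 / ((s : ℝ) + 1)) ^ s ≤ 3 := by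
  have h1 : 1 + 1 / ((s : ℝ) + 1) ≤ Real.exp (1 / ((s : ℝ) + 1)) := by
    have := Real.add_one_le_exp (1 / ((s : ℝ) + 1))
    linarith
  calc (1 + 1 / ((s : ℝ) + 1)) ^ s ≤ (Real.exp (1 / ((s : ℝ) + 1))) ^ s :=
        pow_le_pow_left₀ (by positivity) h1 s
    _ = Real.exp (s * (1 / ((s : ℝ) + 1))) := by rw [← Real.exp_nat_mul]
    _ ≤ Real.exp 1 := by
        apply Real.exp_le_exp.2
        rw [mul_one_div, div_le_one (by positivity)]
        linarith
    _ ≤ 3 := by
        have := Real.exp_one_lt_d9
        linarith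

variable {n k s : ℕ}

theorem val_eq (C : Circuit n s) (x : ∀ i, Item n n i) (j : Fin s) :
    C.val x j = decide ((C.gate j).θ (x none) < ∑ i, (C.gate j).φ i (x (some i)) +
      ∑ i : Fin s, if i < j ∧ C.val x i = true then C.wt j i else 0) := by
  rw [Circuit.val]
  congr 3
  apply sum_congr rfl
  intro i _
  by_cases h : i < j
  · simp [h]
  · simp [h]

theorem val_bottom (C : Circuit n s) (x : ∀ i, Item n n i) (j : Fin s) (h : C.Bottom j) :
    C.val x j = (C.gate j).eval x := by
  rw [val_eq]
  unfold Test.eval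
  congr 2
  have h1 : ∑ i : Fin s, (if i < j ∧ C.val x i = true then C.wt j i else 0) = 0 := by
    apply sum_eq_zero
    intro i _
    split_ifs with h2
    · exact h i h2.1
    · rfl
  rw [h1, add_zero]

/-- the possible values of the gates in `A` as functions of the live number -/
def IsVec (C : Circuit n s) (k : ℕ) (i₀ : Fin n) (A : Finset (Fin s))
    (v : Fin s → Fin (2 ^ k) → Bool) : Prop :=
  (∀ j, j ∉ A → v j = fun _ => false) ∧ ∀ j ∈ A, ∃ c : ℝ, v j = fun y : Fin (2 ^ k) => decide (c <
    (C.gate j).φ i₀ (av n k 0 y) + ∑ i, if i < j ∧ i ∈ A ∧ v i y = true then C.wt j i else 0)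

theorem thr_eq {Y : Type} [Fintype Y] (ψ : Y → ℝ) (c c' : ℝ)
    (h : (univ.filter (fun y => decide (c < ψ y) = true)).card =
      (univ.filter (fun y => decide (c' < ψ y) = true)).card) :
    (fun y => decide (c < ψ y)) = (fun y => decide (c' < ψ y)) := by
  classical
  have h2 : univ.filter (fun y => decide (c < ψ y) = true) =
      univ.filter (fun y => decide (c' < ψ y) = true) := by
    rcases le_total c c' with h3 | h3
    · refine (eq_of_subset_of_card_le ?_ h.le).symm
      intro y hy
      simp only [mem_filter, mem_univ, true_and, decide_eq_true_eq] at hy ⊢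
      exact lt_of_le_of_lt h3 hy
    · refine eq_of_subset_of_card_le ?_ h.ge
      intro y hy
      simp only [mem_filter, mem_univ, true_and, decide_eq_true_eq] at hy ⊢
      exact lt_of_le_of_lt h3 hy
  funext y
  have h3 : y ∈ univ.filter (fun y => decide (c < ψ y) = true) ↔
      y ∈ univ.filter (fun y => decide (c' < ψ y) = true) := by rw [h2]
  simp only [mem_filter, mem_univ, true_and] at h3
  exact Bool.eq_iff_iff.2 h3

open Classical in
theorem card_vec (C : Circuit n s) (i₀ : Fin n) (A : Finset (Fin s)) :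
    (univ.filter (IsVec C k i₀ A)).card ≤ (2 ^ k + 1) ^ A.card := by
  have hinj : Set.InjOn (fun v : Fin s → Fin (2 ^ k) → Bool =>
      (fun j => (univ.filter (fun y => v j y = true)).card))
      (univ.filter (IsVec C k i₀ A) : Finset _) := by
    intro v hv v' hv' heq
    rw [mem_coe, mem_filter] at hv hv'
    obtain ⟨-, hv1, hv2⟩ := hv
    obtain ⟨-, hv1', hv2'⟩ := hv'
    have key : ∀ m : ℕ, ∀ j : Fin s, j.val = m → v j = v' j := by
      intro m
      induction m using Nat.strong_induction_on with
      | _ m ih =>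
        intro j hj
        by_cases hA : j ∈ A
        · obtain ⟨c, hc⟩ := hv2 j hA
          obtain ⟨c', hc'⟩ := hv2' j hA
          have e : ∀ y : Fin (2 ^ k), (∑ i, if i < j ∧ i ∈ A ∧ v i y = true then C.wt j i else 0) =
              ∑ i, if i < j ∧ i ∈ A ∧ v' i y = true then C.wt j i else 0 := by
            intro y
            apply sum_congr rfl
            intro i _
            by_cases h : i < j
            · rw [ih i.val (by have : i.val < j.val := h; omega) i rfl]
            · simp [h]
          have hc2 : v j = fun y : Fin (2 ^ k) => decide (c < (C.gate j).φ i₀ (av n k 0 y) +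
              ∑ i, if i < j ∧ i ∈ A ∧ v' i y = true then C.wt j i else 0) := by
            rw [hc]
            funext y
            rw [e y]
          have hcard := congrFun heq j
          simp only at hcard
          rw [hc2, hc'] at hcard
          rw [hc2, hc']
          exact thr_eq _ c c' hcard
        · rw [hv1 j hA, hv1' j hA]
    funext j
    exact key _ j rfl
  have hmaps : ∀ v ∈ univ.filter (IsVec C k i₀ A),
      (fun j => (univ.filter (fun y => v j y = true)).card) ∈
        Fintype.piFinset (fun j => if j ∈ A then range (2 ^ k + 1) else {0}) := by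
    intro v hv
    rw [mem_filter] at hv
    rw [Fintype.mem_piFinset]
    intro j
    by_cases hA : j ∈ A
    · simp only [hA, if_true, mem_range]
      have h1 := card_le_univ (univ.filter (fun y => v j y = true))
      rw [Fintype.card_fin] at h1
      omega
    · simp only [hA, if_false, mem_singleton]
      rw [hv.2.1 j hA]
      simp
  refine (card_le_card_of_injOn _ hmaps hinj).trans ?_
  rw [Fintype.card_piFinset]
  calc ∏ t : Fin s, (if t ∈ A then range (2 ^ k + 1) else {0}).card
      ≤ ∏ t : Fin s, (if t ∈ A then 2 ^ k + 1 else 1) := by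
        apply Finset.prod_le_prod'
        intro t _
        split_ifs with h
        · rw [card_range]
        · simp
    _ = (2 ^ k + 1) ^ A.card := by
        rw [prod_ite, prod_const, prod_const_one, mul_one]
        congr 2
        ext t; simp

/-- the gate has wires from other gates, or it depends on the live number -/
def Live (C : Circuit n s) (z : Fin (2 ^ k) → Bool) (i₀ : Fin n) (ω : Fin n → Bool × Fin (2 ^ k))
    (j : Fin s) : Prop :=
  ¬ C.Bottom j ∨ Alive (C.gate j) z i₀ ω

open Classical in
/-- the inequality for a fixed place of the live number and fixed junk numbers -/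
theorem fixed (P : Circuit n s) {D : ℕ} (hD : 1 ≤ D) (hP : FewSub D P.top) (i₀ : Fin n)
    (ω : Fin n → Bool × Fin (2 ^ k)) :
    ((2 ^ k : ℕ) : ℝ) * Real.log (4 / 3) ≤ Real.log (3 * D) +
      (∑ z : Fin (2 ^ k) → Bool,
        (Real.log 2 * ((univ.filter (fun y => P.eval (inp n k z i₀ ω y) ≠ z y)).card : ℝ) +
        Real.log (((s : ℝ) + 1) * D * ((2 ^ k : ℕ) + 1)) *
          ((univ.filter (fun t => Live P z i₀ ω t)).card : ℝ))) / 2 ^ (2 ^ k) := by
  choose S hS1 hS2 using hP
  set W : ℝ := ((s : ℝ) + 1) * D * ((2 ^ k : ℕ) + 1) with hW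
  have hD' : (1 : ℝ) ≤ D := by exact_mod_cast hD
  have h2k : (1 : ℝ) ≤ ((2 ^ k : ℕ) : ℝ) + 1 := by
    have : (0 : ℝ) ≤ ((2 ^ k : ℕ) : ℝ) := Nat.cast_nonneg _
    linarith
  have hs1 : (1 : ℝ) ≤ (s : ℝ) + 1 := by
    have : (0 : ℝ) ≤ (s : ℝ) := Nat.cast_nonneg _
    linarith
  have hW1 : 1 ≤ W := by
    rw [hW]
    exact one_le_mul_of_one_le_of_one_le (one_le_mul_of_one_le_of_one_le hs1 hD') h2k
  set F : Finset (Fin s) → Finset (Fin (2 ^ k) → Bool) := fun A =>
    (S A ×ˢ univ.filter (IsVec P k i₀ A)).image
      (fun q => fun y => q.1 (fun t => q.2 t y)) with hF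
  have hFcard : ∀ A, ((F A).card : ℝ) ≤ (D : ℝ) ^ (A.card + 1) * (((2 ^ k : ℕ) : ℝ) + 1) ^ A.card := by
    intro A
    have h1 : (F A).card ≤ D ^ (A.card + 1) * (2 ^ k + 1) ^ A.card := by
      rw [hF]
      refine card_image_le.trans ?_
      rw [card_product]
      exact Nat.mul_le_mul (hS1 A) (card_vec P i₀ A)
    exact_mod_cast h1
  have hFsum : ∑ A : Finset (Fin s), ((F A).card : ℝ) * (1 / W) ^ A.card ≤ 3 * D := by
    calc ∑ A : Finset (Fin s), ((F A).card : ℝ) * (1 / W) ^ A.card
        ≤ ∑ A : Finset (Fin s), (D : ℝ) * (1 / ((s : ℝ) + 1)) ^ A.card := by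
          apply sum_le_sum
          intro A _
          calc ((F A).card : ℝ) * (1 / W) ^ A.card
              ≤ ((D : ℝ) ^ (A.card + 1) * (((2 ^ k : ℕ) : ℝ) + 1) ^ A.card) * (1 / W) ^ A.card :=
                mul_le_mul_of_nonneg_right (hFcard A) (by positivity)
            _ = (D : ℝ) * (D * (((2 ^ k : ℕ) : ℝ) + 1) * (1 / W)) ^ A.card := by
                rw [mul_pow, mul_pow, pow_succ]; ring
            _ = (D : ℝ) * (1 / ((s : ℝ) + 1)) ^ A.card := by
                congr 2
                rw [hW]
                field_simp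
      _ = (D : ℝ) * (1 + 1 / ((s : ℝ) + 1)) ^ s := by rw [← mul_sum, sum_card_pow]
      _ ≤ D * 3 := mul_le_mul_of_nonneg_left (pow_le_three s) (by positivity)
      _ = 3 * D := by ring
  have h := wcoding W (3 * D) hW1 (by positivity) F hFsum
    (fun z => univ.filter (fun t => Live P z i₀ ω t))
    (fun z => fun y => P.eval (inp n k z i₀ ω y)) (by
      intro z
      set A := univ.filter (fun t => Live P z i₀ ω t) with hA
      set y₀ : Fin (2 ^ k) := ⟨0, by positivity⟩ with hy₀
      set ρ : Fin s → Bool := fun t => P.val (inp n k z i₀ ω y₀) t with hρ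
      have hdead : ∀ t, t ∉ A → ∀ y, P.val (inp n k z i₀ ω y) t = ρ t := by
        intro t ht y
        have h1 : ¬ Live P z i₀ ω t := fun h => ht (by rw [hA, mem_filter]; exact ⟨mem_univ _, h⟩)
        unfold Live at h1
        push Not at h1
        rw [hρ]
        simp only
        rw [val_bottom P _ t h1.1, val_bottom P _ t h1.1]
        by_contra hne
        exact h1.2 ⟨y, y₀, hne⟩
      rw [hF]
      simp only
      rw [mem_image]
      refine ⟨(fun u => P.top (bv n k z) (A.piecewise u ρ),
        fun t => if t ∈ A then (fun y => P.val (inp n k z i₀ ω y) t) else fun _ => false),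
        ?_, ?_⟩
      · rw [mem_product]
        refine ⟨hS2 A (bv n k z) ρ, ?_⟩
        rw [mem_filter]
        refine ⟨mem_univ _, fun t ht => by simp only [ht, if_false], fun t ht => ?_⟩
        refine ⟨(P.gate t).θ (bv n k z) - ∑ i, jf (P.gate t) k i₀ i (ω i) -
          ∑ i, (if i < t ∧ i ∉ A ∧ ρ i = true then P.wt t i else 0), ?_⟩
        simp only [ht, if_true]
        funext y
        rw [val_eq, sum_inp]
        have e1 : (inp n k z i₀ ω y none : Fin n → ℤ) = bv n k z := rfl
        rw [e1]
        have e2 : ∑ i : Fin s, (if i < t ∧ P.val (inp n k z i₀ ω y) i = true then P.wt t i else 0) =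
            ∑ i, (if i < t ∧ i ∈ A ∧ (if i ∈ A then (fun y => P.val (inp n k z i₀ ω y) i)
              else fun _ => false) y = true then P.wt t i else 0) +
            ∑ i, (if i < t ∧ i ∉ A ∧ ρ i = true then P.wt t i else 0) := by
          rw [← sum_add_distrib]
          apply sum_congr rfl
          intro i _
          by_cases h1 : i < t
          · by_cases h2 : i ∈ A
            · simp [h1, h2]
            · rw [hdead i h2 y]
              simp [h1, h2]
          · simp [h1]
        rw [e2]
        apply decide_eq_decide.2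
        constructor <;> intro h <;> linarith
      · funext y
        simp only
        unfold Circuit.eval
        have e1 : (inp n k z i₀ ω y none : Fin n → ℤ) = bv n k z := rfl
        rw [e1]
        congr 1
        funext t
        by_cases ht : t ∈ A
        · rw [piecewise_eq_of_mem _ _ _ ht]
          simp only [ht, if_true]
        · rw [piecewise_eq_of_notMem _ _ _ ht, hdead t ht y])
  rw [Fintype.card_fin] at h
  exact h

end Pool.Agent.L0h73.LT
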