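import Pool.Agent.L0h73.LT.Main

set_option autoImplicit false

/-! # The inequality for circuits of linear inequalities -/

namespace Pool.Agent.L0h73.LT

open Finset Pool.Agent.TH697.Form.ThreeSum Pool.Agent.TH697.Form Pool.Agent.TH697.Row
open Pool.Agent.TH457.Ary.ZeroSum

theorem sqrtSupp_nonneg {n s : ℕ} (C : Circuit n s) : 0 ≤ C.sqrtSupp :=
  sum_nonneg (fun _ _ => Real.sqrt_nonneg _)

theorem main {n s D : ℕ} (hn : 40 ≤ n) (hD : 1 ≤ D)
    {Ω : Type} [Fintype Ω] (μ : Ω → ℝ) (hμ : IsProb μ) (P : Ω → Circuit n s)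
    (hP : ∀ r, FewSub D (P r).top)
    (hA : ApproximatesOn μ (fun r => (P r).eval) (Valid n n) (zeroSum n)) :
    (n : ℝ) ^ 2 ≤ 25 * (n * Real.logb 2 (3 * D) + Real.logb 2 (((s : ℝ) + 1) * D * n) *
      ∑ r, μ r * (n * (P r).upper + 2 * Real.logb 2 n * (P r).sqrtSupp)) := by
  set k := Nat.log 2 (n - 1) with hk
  have h1 : 2 ^ k ≤ n - 1 := Nat.pow_log_le_self 2 (by omega)
  have h2 : n - 1 < 2 ^ (k + 1) := Nat.lt_pow_succ_log_self (by norm_num) _
  have hk1 : 1 ≤ k := by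
    by_contra h
    have : k = 0 := by omega
    rw [this] at h2
    omega
  have hn0 : (0 : ℝ) < n := by exact_mod_cast (by omega : 0 < n)
  have hD' : (1 : ℝ) ≤ D := by exact_mod_cast hD
  have hs0 : (0 : ℝ) ≤ (s : ℝ) := Nat.cast_nonneg _
  have hlog : 0 < Real.log 2 := Real.log_pos (by norm_num)
  have hkn : (k : ℝ) ≤ Real.logb 2 n := by
    rw [Real.le_logb_iff_rpow_le (by norm_num) hn0, Real.rpow_natCast]
    have : 2 ^ k ≤ n := by omega
    exact_mod_cast this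
  have hN1 : ((2 ^ k : ℕ) : ℝ) + 1 ≤ n := by
    have : 2 ^ k + 1 ≤ n := by omega
    exact_mod_cast this
  have hN2 : (n : ℝ) / 2 ≤ ((2 ^ k : ℕ) : ℝ) := by
    have : n ≤ 2 * 2 ^ k := by
      rw [pow_succ] at h2
      omega
    have h3 : (n : ℝ) ≤ 2 * ((2 ^ k : ℕ) : ℝ) := by exact_mod_cast this
    linarith
  have hmain := average hk1 (by omega : 2 ^ k + 1 ≤ n) hn hD μ hμ P hP hA
  set N : ℝ := ((2 ^ k : ℕ) : ℝ) with hN
  have hN0 : 0 ≤ N := Nat.cast_nonneg _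
  set S : ℝ := ∑ r, μ r * (n * (P r).upper + 2 * k * (P r).sqrtSupp) with hS
  set S' : ℝ := ∑ r, μ r * (n * (P r).upper + 2 * Real.logb 2 n * (P r).sqrtSupp) with hS'
  have hSS : S ≤ S' := by
    apply sum_le_sum
    intro r _
    apply mul_le_mul_of_nonneg_left _ (hμ.nonneg r)
    have := mul_le_mul_of_nonneg_right (mul_le_mul_of_nonneg_left hkn (by norm_num : (0 : ℝ) ≤ 2))
      (sqrtSupp_nonneg (P r))
    linarith
  have hS0 : 0 ≤ S := by
    apply sum_nonneg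
    intro r _
    apply mul_nonneg (hμ.nonneg r)
    have := sqrtSupp_nonneg (P r)
    positivity
  have hX1 : 1 ≤ ((s : ℝ) + 1) * D * (N + 1) :=
    one_le_mul_of_one_le_of_one_le (one_le_mul_of_one_le_of_one_le (by linarith) hD') (by linarith)
  have hX2 : ((s : ℝ) + 1) * D * (N + 1) ≤ ((s : ℝ) + 1) * D * n :=
    mul_le_mul_of_nonneg_left hN1 (by positivity)
  have hL1 : 0 ≤ Real.log (((s : ℝ) + 1) * D * (N + 1)) := Real.log_nonneg hX1
  have hL2 : Real.log (((s : ℝ) + 1) * D * (N + 1)) ≤ Real.log (((s : ℝ) + 1) * D * n) :=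
    Real.log_le_log (by linarith) hX2
  have hfin : (49 / 1200 : ℝ) * (n : ℝ) ^ 2 * Real.log 2 ≤ n * Real.log (3 * D) +
      Real.log (((s : ℝ) + 1) * D * n) * S' := by
    have h3 : (49 / 1200 : ℝ) * (n : ℝ) ^ 2 * Real.log 2 ≤ (n : ℝ) * ((49 / 600 : ℝ) * N * Real.log 2) := by
      have h4 : (n : ℝ) * (n / 2) ≤ n * N := mul_le_mul_of_nonneg_left hN2 hn0.le
      have h5 := mul_le_mul_of_nonneg_right h4 hlog.le
      nlinarith [h5]
    have h6 : Real.log (((s : ℝ) + 1) * D * (N + 1)) * S ≤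
        Real.log (((s : ℝ) + 1) * D * n) * S' :=
      mul_le_mul hL2 hSS hS0 (hL1.trans hL2)
    linarith
  have hlb : ∀ x : ℝ, Real.logb 2 x = Real.log x / Real.log 2 := fun x => rfl
  rw [hlb, hlb]
  have hRHS : (n : ℝ) * (Real.log (3 * D) / Real.log 2) +
      Real.log (((s : ℝ) + 1) * D * n) / Real.log 2 * S' =
      (n * Real.log (3 * D) + Real.log (((s : ℝ) + 1) * D * n) * S') / Real.log 2 := by
    field_simp
  rw [hRHS]
  have h7 : (49 / 1200 : ℝ) * (n : ℝ) ^ 2 ≤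
      (n * Real.log (3 * D) + Real.log (((s : ℝ) + 1) * D * n) * S') / Real.log 2 := by
    rw [le_div_iff₀ hlog]
    exact hfin
  have h8 : (0 : ℝ) ≤ (n : ℝ) ^ 2 := by positivity
  linarith

end Pool.Agent.L0h73.LT
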