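import Pool.Agent.L0h73.LT.Tops
import Pool.Agent.L0h73.LT.Final

set_option autoImplicit false

/-! # The number of the gates -/

namespace Pool.Agent.L0h73.LT

open Finset Pool.Agent.TH697.Form.ThreeSum Pool.Agent.TH697.Form Pool.Agent.TH697.Row
open Pool.Agent.TH457.Ary.ZeroSum

theorem supp_le {n : ℕ} (T : Test n) : T.supp ≤ n := by
  classical
  unfold Test.supp
  exact (card_le_univ _).trans (by rw [Fintype.card_fin])

theorem sqrtSupp_le {n s : ℕ} (C : Circuit n s) : C.sqrtSupp ≤ s * √(n : ℝ) := by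
  classical
  unfold Circuit.sqrtSupp
  calc ∑ j ∈ univ.filter (fun j => C.Bottom j), √((C.gate j).supp : ℝ)
      ≤ ∑ _j : Fin s, √(n : ℝ) := by
        refine (sum_le_sum_of_subset_of_nonneg (filter_subset _ _)
          (fun _ _ _ => Real.sqrt_nonneg _)).trans ?_
        apply sum_le_sum
        intro j _
        apply Real.sqrt_le_sqrt
        exact_mod_cast supp_le _
    _ = s * √(n : ℝ) := by
        rw [sum_const, card_univ, Fintype.card_fin, nsmul_eq_mul]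

theorem log_bounds {n : ℕ} (hn : 10000 ≤ n) :
    13 ≤ Real.logb 2 n ∧ 700 * Real.logb 2 n ≤ n := by
  have hn' : (10000 : ℝ) ≤ n := by exact_mod_cast hn
  have hlog : 0 < Real.log 2 := Real.log_pos (by norm_num)
  have hl2 : (0.6931471803 : ℝ) < Real.log 2 := Real.log_two_gt_d9
  constructor
  · rw [Real.le_logb_iff_rpow_le (by norm_num) (by linarith)]
    have : (2 : ℝ) ^ (13 : ℝ) = 8192 := by
      rw [show (13 : ℝ) = ((13 : ℕ) : ℝ) by norm_num, Real.rpow_natCast]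
      norm_num
    rw [this]
    linarith
  · have h1 : Real.log n ≤ Real.log 10000 + (n / 10000 - 1) := by
      have h2 : Real.log n = Real.log 10000 + Real.log (n / 10000) := by
        rw [← Real.log_mul (by norm_num) (by positivity)]
        congr 1
        field_simp
      have h3 := Real.log_le_sub_one_of_pos (show (0 : ℝ) < n / 10000 by positivity)
      linarith
    have h4 : 10 * Real.log 10000 ≤ 133 * Real.log 2 := by
      have h5 : (10 : ℝ) * Real.log 10000 = Real.log (10000 ^ 10) := by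
        rw [Real.log_pow]
        norm_num
      have h6 : (133 : ℝ) * Real.log 2 = Real.log (2 ^ 133) := by
        rw [Real.log_pow]
        norm_num
      rw [h5, h6]
      exact Real.log_le_log (by norm_num) (by norm_num)
    have h7 : Real.logb 2 n = Real.log n / Real.log 2 := rfl
    rw [h7]
    have h8 : 700 * (Real.log n / Real.log 2) = (700 * Real.log n) / Real.log 2 := by ring
    rw [h8, div_le_iff₀ hlog]
    nlinarith

theorem mean_bound {n s : ℕ} (hn : 10000 ≤ n) (hs : s ≤ n ^ 2)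
    {Ω : Type} [Fintype Ω] (μ : Ω → ℝ) (hμ : IsProb μ) (P : Ω → Circuit n s)
    (hP : ∀ r, Simple (P r).top)
    (hA : ApproximatesOn μ (fun r => (P r).eval) (Valid n n) (zeroSum n))
    (hU : 700 * Real.logb 2 n * ∑ r, μ r * (P r).upper ≤ n) :
    (n : ℝ) ^ 2 ≤ 600 * (Real.logb 2 n) ^ 2 * ∑ r, μ r * (P r).sqrtSupp := by
  obtain ⟨hL, hLn⟩ := log_bounds hn
  have hn' : (10000 : ℝ) ≤ n := by exact_mod_cast hn
  have hn0 : (0 : ℝ) < n := by linarith
  have h := main (by omega : 40 ≤ n) (Nat.one_le_iff_ne_zero.2 (by positivity)) μ hμ P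
    (fun r => few_simple (by omega) _ (hP r)) hA
  set L := Real.logb 2 (n : ℝ) with hLdef
  set U := ∑ r, μ r * ((P r).upper : ℝ) with hUdef
  set Q := ∑ r, μ r * (P r).sqrtSupp with hQdef
  have hsum : ∑ r, μ r * (n * ((P r).upper : ℝ) + 2 * L * (P r).sqrtSupp) = n * U + 2 * L * Q := by
    rw [hUdef, hQdef, mul_sum, mul_sum, ← sum_add_distrib]
    apply sum_congr rfl
    intro r _
    ring
  rw [hsum] at h
  have hU0 : 0 ≤ U := sum_nonneg (fun r _ => mul_nonneg (hμ.nonneg r) (Nat.cast_nonneg _))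
  have hQ0 : 0 ≤ Q := sum_nonneg (fun r _ => mul_nonneg (hμ.nonneg r) (sqrtSupp_nonneg _))
  have hpow : ∀ a : ℕ, Real.logb 2 ((n : ℝ) ^ a) = a * L := by
    intro a
    rw [Real.logb_pow]
  have hn2 : (100000000 : ℝ) ≤ (n : ℝ) ^ 2 := by nlinarith
  have hD : (((n ^ 2 + 2) ^ 2 : ℕ) : ℝ) = ((n : ℝ) ^ 2 + 2) ^ 2 := by push_cast; ring
  rw [hD] at h
  have hD2 : 3 * ((n : ℝ) ^ 2 + 2) ^ 2 ≤ 4 * (n : ℝ) ^ 4 := by
    have h4 : (n : ℝ) ^ 4 = ((n : ℝ) ^ 2) ^ 2 := by ring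
    rw [h4]
    nlinarith
  have h1 : Real.logb 2 (3 * ((n : ℝ) ^ 2 + 2) ^ 2) ≤ 4.2 * L := by
    have h2 : Real.logb 2 (3 * ((n : ℝ) ^ 2 + 2) ^ 2) ≤ Real.logb 2 (4 * (n : ℝ) ^ 4) :=
      Real.logb_le_logb_of_le (by norm_num) (by positivity) hD2
    have h3 : Real.logb 2 (4 * (n : ℝ) ^ 4) = 2 + 4 * L := by
      rw [Real.logb_mul (by norm_num) (by positivity), hpow]
      have : Real.logb 2 4 = 2 := by
        rw [show (4 : ℝ) = 2 ^ (2 : ℕ) by norm_num, Real.logb_pow, Real.logb_self_eq_one (by norm_num)]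
        norm_num
      rw [this]
      norm_num
    rw [h3] at h2
    linarith
  have h2 : Real.logb 2 (((s : ℝ) + 1) * ((n : ℝ) ^ 2 + 2) ^ 2 * n) ≤ 7.1 * L := by
    have hs' : (s : ℝ) ≤ (n : ℝ) ^ 2 := by exact_mod_cast hs
    have hs0 : (0 : ℝ) ≤ (s : ℝ) := Nat.cast_nonneg _
    have h3 : ((s : ℝ) + 1) * ((n : ℝ) ^ 2 + 2) ^ 2 * n ≤ 2 * (n : ℝ) ^ 7 := by
      have h4 : ((s : ℝ) + 1) ≤ 1.001 * (n : ℝ) ^ 2 := by linarith
      have h5 : ((n : ℝ) ^ 2 + 2) ^ 2 ≤ (4 / 3) * (n : ℝ) ^ 4 := by linarith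
      calc ((s : ℝ) + 1) * ((n : ℝ) ^ 2 + 2) ^ 2 * n
          ≤ (1.001 * (n : ℝ) ^ 2) * ((4 / 3) * (n : ℝ) ^ 4) * n := by
            apply mul_le_mul_of_nonneg_right _ hn0.le
            exact mul_le_mul h4 h5 (by positivity) (by positivity)
        _ = (1.001 * (4 / 3)) * (n : ℝ) ^ 7 := by ring
        _ ≤ 2 * (n : ℝ) ^ 7 := by
            apply mul_le_mul_of_nonneg_right _ (by positivity)
            norm_num
    have h6 : Real.logb 2 (((s : ℝ) + 1) * ((n : ℝ) ^ 2 + 2) ^ 2 * n) ≤ Real.logb 2 (2 * (n : ℝ) ^ 7) :=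
      Real.logb_le_logb_of_le (by norm_num) (by positivity) h3
    have h7 : Real.logb 2 (2 * (n : ℝ) ^ 7) = 1 + 7 * L := by
      rw [Real.logb_mul (by norm_num) (by positivity), hpow, Real.logb_self_eq_one (by norm_num)]
      norm_num
    rw [h7] at h6
    linarith
  have hR0 : 0 ≤ n * U + 2 * L * Q := by positivity
  have h3 : (n : ℝ) ^ 2 ≤ 25 * (n * (4.2 * L) + 7.1 * L * (n * U + 2 * L * Q)) := by
    refine h.trans ?_
    have a1 := mul_le_mul_of_nonneg_left h1 hn0.le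
    have a2 := mul_le_mul_of_nonneg_right h2 hR0
    linarith
  have h4 : (n : ℝ) * (700 * L) ≤ n * n := mul_le_mul_of_nonneg_left hLn hn0.le
  have h5 : (n : ℝ) * (700 * L * U) ≤ n * n := mul_le_mul_of_nonneg_left hU hn0.le
  have h6 : 0 ≤ L ^ 2 * Q := by positivity
  nlinarith [h3, h4, h5, h6]

theorem gates_bound {n s : ℕ} (hn : 10000 ≤ n)
    {Ω : Type} [Fintype Ω] (μ : Ω → ℝ) (hμ : IsProb μ) (P : Ω → Circuit n s)
    (hP : ∀ r, Simple (P r).top)
    (hA : ApproximatesOn μ (fun r => (P r).eval) (Valid n n) (zeroSum n))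
    (hU : 700 * Real.logb 2 n * ∑ r, μ r * (P r).upper ≤ n) :
    (n : ℝ) * √(n : ℝ) ≤ 600 * (Real.logb 2 n) ^ 2 * s := by
  obtain ⟨hL, hLn⟩ := log_bounds hn
  have hn' : (10000 : ℝ) ≤ n := by exact_mod_cast hn
  have hn0 : (0 : ℝ) < n := by linarith
  have hsq : 0 < √(n : ℝ) := Real.sqrt_pos.2 hn0
  have hsq2 : √(n : ℝ) * √(n : ℝ) = n := Real.mul_self_sqrt hn0.le
  by_cases hs : s ≤ n ^ 2
  · have h := mean_bound hn hs μ hμ P hP hA hU
    have hQ : ∑ r, μ r * (P r).sqrtSupp ≤ s * √(n : ℝ) := by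
      calc ∑ r, μ r * (P r).sqrtSupp ≤ ∑ r, μ r * (s * √(n : ℝ)) := by
            apply sum_le_sum
            intro r _
            exact mul_le_mul_of_nonneg_left (sqrtSupp_le _) (hμ.nonneg r)
        _ = s * √(n : ℝ) := by rw [← sum_mul, hμ.sum_one, one_mul]
    have h2 : (n : ℝ) ^ 2 ≤ 600 * (Real.logb 2 n) ^ 2 * (s * √(n : ℝ)) :=
      h.trans (mul_le_mul_of_nonneg_left hQ (by positivity))
    have h3 : ((n : ℝ) * √(n : ℝ)) * √(n : ℝ) ≤ (600 * (Real.logb 2 n) ^ 2 * s) * √(n : ℝ) := by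
      calc ((n : ℝ) * √(n : ℝ)) * √(n : ℝ) = n * (√(n : ℝ) * √(n : ℝ)) := by ring
        _ = (n : ℝ) ^ 2 := by rw [hsq2]; ring
        _ ≤ _ := h2
        _ = _ := by ring
    exact le_of_mul_le_mul_right h3 hsq
  · push Not at hs
    have hs' : (n : ℝ) ^ 2 ≤ s := by exact_mod_cast hs.le
    have h1 : √(n : ℝ) ≤ n := by
      have h2 : 1 ≤ √(n : ℝ) := by
        rw [Real.one_le_sqrt]
        linarith
      nlinarith
    have h3 : (n : ℝ) * √(n : ℝ) ≤ (n : ℝ) ^ 2 := by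
      rw [sq]
      exact mul_le_mul_of_nonneg_left h1 hn0.le
    have h4 : (1 : ℝ) ≤ 600 * (Real.logb 2 n) ^ 2 := by nlinarith
    have h5 : (s : ℝ) ≤ 600 * (Real.logb 2 n) ^ 2 * s := by
      have := mul_le_mul_of_nonneg_right h4 (Nat.cast_nonneg (α := ℝ) s)
      linarith
    linarith

end Pool.Agent.L0h73.LT
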