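import Pool.Agent.L0h73.LT.Tame
import Pool.Agent.L0h73.LT.LO

set_option autoImplicit false

/-! # How often does the result of a test depend on the live number? -/

namespace Pool.Agent.L0h73.LT

open Finset Pool.Agent.TH697.Form.ThreeSum

variable {n k : ℕ}

/-- the result of the test depends on the live number -/
def Alive (T : Test n) (z : Fin (2 ^ k) → Bool) (i₀ : Fin n) (ω : Fin n → Bool × Fin (2 ^ k)) :
    Prop :=
  ∃ y y', T.eval (inp n k z i₀ ω y) ≠ T.eval (inp n k z i₀ ω y')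

/-- the part of the sum which comes from the junk numbers -/
noncomputable def jf (T : Test n) (k : ℕ) (i₀ i : Fin n) (w : Bool × Fin (2 ^ k)) : ℝ :=
  if i = i₀ then 0 else T.φ i (av n k (jm i w.1) w.2)

theorem sum_inp (T : Test n) (z : Fin (2 ^ k) → Bool) (i₀ : Fin n)
    (ω : Fin n → Bool × Fin (2 ^ k)) (y : Fin (2 ^ k)) :
    ∑ i, T.φ i (inp n k z i₀ ω y (some i)) =
      ∑ i, jf T k i₀ i (ω i) + T.φ i₀ (av n k 0 y) := by
  classical
  rw [← Finset.add_sum_erase univ _ (mem_univ i₀), ← Finset.add_sum_erase univ (fun i =>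
    jf T k i₀ i (ω i)) (mem_univ i₀)]
  have h1 : inp n k z i₀ ω y (some i₀) = av n k 0 y := by simp [inp]
  have h2 : jf T k i₀ i₀ (ω i₀) = 0 := by simp [jf]
  have h3 : ∑ i ∈ univ.erase i₀, T.φ i (inp n k z i₀ ω y (some i)) =
      ∑ i ∈ univ.erase i₀, jf T k i₀ i (ω i) := by
    apply sum_congr rfl
    intro i hi
    have hne := ne_of_mem_erase hi
    simp [inp, jf, hne]
  rw [h1, h2, h3]
  ring

theorem eval_inp (T : Test n) (z : Fin (2 ^ k) → Bool) (i₀ : Fin n)
    (ω : Fin n → Bool × Fin (2 ^ k)) (y : Fin (2 ^ k)) :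
    T.eval (inp n k z i₀ ω y) = decide (T.θ (bv n k z) <
      ∑ i, jf T k i₀ i (ω i) + T.φ i₀ (av n k 0 y)) := by
  unfold Test.eval
  rw [sum_inp]
  rfl

open Classical in
theorem alive_one (T : Test n) (z : Fin (2 ^ k) → Bool) (i₀ : Fin n)
    (d : Fin n → ℝ) (σ : Fin n → Equiv.Perm (Bool × Fin (2 ^ k)))
    (hg : ∀ i, Good n k (T.φ i) i (d i) (σ i)) (hd : 0 < d i₀) (I : Finset (Fin n))
    (hI : ∀ i ∈ I, i ≠ i₀ ∧ d i₀ ≤ d i) :
    ((univ.filter (fun ω => Alive T z i₀ ω)).card : ℝ) ≤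
      k * (1 / √((I.card : ℝ) + 1)) * Fintype.card (Fin n → Bool × Fin (2 ^ k)) := by
  set C : ℝ := ((Fintype.card (Fin n → Bool × Fin (2 ^ k)) : ℕ) : ℝ) with hC
  -- the largest value
  have : Nonempty (Fin (2 ^ k)) := ⟨⟨0, by positivity⟩⟩
  obtain ⟨y₀, -, hy₀⟩ := exists_max_image (univ : Finset (Fin (2 ^ k)))
    (fun y => T.φ i₀ (av n k 0 y)) univ_nonempty
  set p : ℝ := T.θ (bv n k z) - T.φ i₀ (av n k 0 y₀) with hp
  have hsub : (univ.filter (fun ω => Alive T z i₀ ω)) ⊆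
      (range k).biUnion (fun l => univ.filter (fun ω : Fin n → Bool × Fin (2 ^ k) =>
        p + l * d i₀ < ∑ i, jf T k i₀ i (ω i) ∧ ∑ i, jf T k i₀ i (ω i) ≤ (p + l * d i₀) + d i₀)) := by
    intro ω hω
    rw [mem_filter] at hω
    obtain ⟨-, y, y', hne⟩ := hω
    have h1 : ∃ y y', T.eval (inp n k z i₀ ω y) = true ∧ T.eval (inp n k z i₀ ω y') = false := by
      cases h2 : T.eval (inp n k z i₀ ω y) <;> cases h3 : T.eval (inp n k z i₀ ω y')
      · rw [h2, h3] at hne; exact absurd rfl hne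
      · exact ⟨y', y, h3, h2⟩
      · exact ⟨y, y', h2, h3⟩
      · rw [h2, h3] at hne; exact absurd rfl hne
    obtain ⟨y, y', h2, h3⟩ := h1
    rw [eval_inp, decide_eq_true_iff] at h2
    rw [eval_inp, decide_eq_false_iff_not, not_lt] at h3
    set G := ∑ i, jf T k i₀ i (ω i) with hG
    have h4 : T.φ i₀ (av n k 0 y) ≤ T.φ i₀ (av n k 0 y₀) := hy₀ y (mem_univ _)
    have h5 := (hg i₀).2.2 y₀ y'
    have h6 : p < G := by rw [hp]; linarith
    have h7 : G ≤ p + k * d i₀ := by rw [hp]; linarith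
    -- the index
    set m := ⌈(G - p) / d i₀⌉₊ with hm
    have h8 : 0 < (G - p) / d i₀ := div_pos (by linarith) hd
    have h9 : 0 < m := Nat.ceil_pos.2 h8
    have h10 : m ≤ k := by
      rw [hm, Nat.ceil_le, div_le_iff₀ hd]
      linarith
    have h11 : (G - p) / d i₀ ≤ m := Nat.le_ceil _
    have h12 : ((m - 1 : ℕ) : ℝ) < (G - p) / d i₀ := by
      have : m - 1 < ⌈(G - p) / d i₀⌉₊ := by omega
      exact Nat.lt_ceil.1 this
    rw [div_le_iff₀ hd] at h11
    rw [lt_div_iff₀ hd] at h12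
    have h13 : ((m - 1 : ℕ) : ℝ) = (m : ℝ) - 1 := by
      rw [Nat.cast_sub (by omega)]; simp
    rw [mem_biUnion]
    refine ⟨m - 1, mem_range.2 (by omega), ?_⟩
    rw [mem_filter]
    refine ⟨mem_univ _, by linarith, ?_⟩
    rw [h13]
    linarith
  have h1 : ((univ.filter (fun ω => Alive T z i₀ ω)).card : ℝ) ≤
      ∑ l ∈ range k, ((univ.filter (fun ω : Fin n → Bool × Fin (2 ^ k) =>
        p + l * d i₀ < ∑ i, jf T k i₀ i (ω i) ∧
          ∑ i, jf T k i₀ i (ω i) ≤ (p + l * d i₀) + d i₀)).card : ℝ) := by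
    have h2 := (card_le_card hsub).trans card_biUnion_le
    exact_mod_cast h2
  have h2 : ∀ l ∈ range k, ((univ.filter (fun ω : Fin n → Bool × Fin (2 ^ k) =>
        p + l * d i₀ < ∑ i, jf T k i₀ i (ω i) ∧
          ∑ i, jf T k i₀ i (ω i) ≤ (p + l * d i₀) + d i₀)).card : ℝ) ≤
      (1 / √((I.card : ℝ) + 1)) * C := by
    intro l _
    have h3 := littlewood_offord (jf T k i₀) σ I (d := d i₀) (p := p + l * d i₀) (by
      intro i hi w
      obtain ⟨h4, h5⟩ := hI i hi
      have h6 := (hg i).2.1 w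
      unfold jf
      rw [if_neg h4, if_neg h4]
      linarith)
    have h4 : ((univ.filter (fun ω : Fin n → Bool × Fin (2 ^ k) =>
        p + l * d i₀ < ∑ i, jf T k i₀ i (ω i) ∧
          ∑ i, jf T k i₀ i (ω i) ≤ (p + l * d i₀) + d i₀)).card : ℝ) * 2 ^ I.card ≤
        (I.card.choose (I.card / 2) : ℝ) * C := by
      rw [hC]
      exact_mod_cast h3
    have h5 := choose_half_le I.card
    have h6 : (0 : ℝ) < 2 ^ I.card := by positivity
    have hC0 : 0 ≤ C := Nat.cast_nonneg _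
    calc _ ≤ (I.card.choose (I.card / 2) : ℝ) * C / 2 ^ I.card := by
          rw [le_div_iff₀ h6]; exact h4
      _ = (I.card.choose (I.card / 2) : ℝ) / 2 ^ I.card * C := by ring
      _ ≤ _ := mul_le_mul_of_nonneg_right h5 hC0
  calc _ ≤ _ := h1
    _ ≤ ∑ _l ∈ range k, (1 / √((I.card : ℝ) + 1)) * C := sum_le_sum h2
    _ = _ := by rw [sum_const, card_range, nsmul_eq_mul]; ring

open Classical in
/-- the number of the cases in which the test is alive -/
theorem alive_count (hk : 1 ≤ k) (T : Test n) (z : Fin (2 ^ k) → Bool) :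
    ∑ i₀ : Fin n, ((univ.filter (fun ω => Alive T z i₀ ω)).card : ℝ) ≤
      2 * k * √(T.supp : ℝ) * Fintype.card (Fin n → Bool × Fin (2 ^ k)) := by
  set C : ℝ := ((Fintype.card (Fin n → Bool × Fin (2 ^ k)) : ℕ) : ℝ) with hC
  have hC0 : 0 ≤ C := Nat.cast_nonneg _
  choose d σ hg using fun i => good_tame hk (T.φ i) (T.tame i) i
  set I : Finset (Fin n) := univ.filter (fun i => 0 < d i) with hI
  have h1 : ∀ i₀ : Fin n, ((univ.filter (fun ω => Alive T z i₀ ω)).card : ℝ) ≤
      if i₀ ∈ I then k * (1 / √(((I.filter (fun j => j ≠ i₀ ∧ d i₀ ≤ d j)).card : ℝ) + 1)) * C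
        else 0 := by
    intro i₀
    split_ifs with h
    · rw [hI, mem_filter] at h
      apply alive_one T z i₀ d σ hg h.2
      intro i hi
      rw [mem_filter] at hi
      exact hi.2
    · have h2 : d i₀ = 0 := by
        have h3 : ¬ 0 < d i₀ := fun h3 => h (by rw [hI, mem_filter]; exact ⟨mem_univ _, h3⟩)
        exact le_antisymm (not_lt.1 h3) (hg i₀).1
      have h4 : univ.filter (fun ω => Alive T z i₀ ω) = ∅ := by
        rw [filter_eq_empty_iff]
        rintro ω - ⟨y, y', hne⟩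
        apply hne
        rw [eval_inp, eval_inp]
        have h5 := (hg i₀).2.2 y y'
        have h6 := (hg i₀).2.2 y' y
        rw [h2, mul_zero] at h5 h6
        have h7 : T.φ i₀ (av n k 0 y) = T.φ i₀ (av n k 0 y') := by linarith
        rw [h7]
      rw [h4]
      simp
  have hsupp : I.card ≤ T.supp := by
    unfold Test.supp
    apply card_le_card
    intro i hi
    rw [hI, mem_filter] at hi
    rw [mem_filter]
    refine ⟨mem_univ _, ?_⟩
    by_contra hno
    push Not at hno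
    have h2 := (hg i).2.1 (true, ⟨0, by positivity⟩)
    rw [hno _ (av n k (jm i (true, (⟨0, by positivity⟩ : Fin (2 ^ k))).1)
      (true, (⟨0, by positivity⟩ : Fin (2 ^ k))).2), sub_self, abs_zero] at h2
    linarith [hi.2]
  have hanti : Antitone (fun r : ℕ => 1 / √((r : ℝ) + 1)) := by
    intro a b hab
    apply one_div_le_one_div_of_le (Real.sqrt_pos.2 (by positivity))
    apply Real.sqrt_le_sqrt
    have : (a : ℝ) ≤ b := by exact_mod_cast hab
    linarith
  have h2 := rank_sum d (fun r : ℕ => 1 / √((r : ℝ) + 1)) hanti I.card I rfl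
  have h3 := sum_inv_sqrt I.card
  calc ∑ i₀ : Fin n, ((univ.filter (fun ω => Alive T z i₀ ω)).card : ℝ)
      ≤ ∑ i₀ : Fin n, if i₀ ∈ I then
          k * (1 / √(((I.filter (fun j => j ≠ i₀ ∧ d i₀ ≤ d j)).card : ℝ) + 1)) * C else 0 :=
        sum_le_sum fun i₀ _ => h1 i₀
    _ = ∑ i₀ ∈ I, k * (1 / √(((I.filter (fun j => j ≠ i₀ ∧ d i₀ ≤ d j)).card : ℝ) + 1)) * C := by
        rw [← sum_filter]
        congr 1
        ext i
        simp
    _ = k * C * ∑ i₀ ∈ I, (1 / √(((I.filter (fun j => j ≠ i₀ ∧ d i₀ ≤ d j)).card : ℝ) + 1)) := by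
        rw [mul_sum]
        apply sum_congr rfl
        intro i _
        ring
    _ ≤ k * C * (2 * √(I.card : ℝ)) :=
        mul_le_mul_of_nonneg_left (h2.trans h3) (by positivity)
    _ ≤ k * C * (2 * √(T.supp : ℝ)) := by
        apply mul_le_mul_of_nonneg_left _ (by positivity)
        apply mul_le_mul_of_nonneg_left _ (by norm_num)
        exact Real.sqrt_le_sqrt (by exact_mod_cast hsupp)
    _ = _ := by ring

end Pool.Agent.L0h73.LT
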