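import Pool.Agent.TH697.Row.Promise
import Pool.Agent.TH457.Ary.ZeroSumDefs

set_option autoImplicit false

/-! # Circuits of gates which test linear inequalities -/

namespace Pool.Agent.L0h73.LT

open Finset Pool.Agent.TH697.Form.ThreeSum

/-- The function `φ` of an integer is monotone, or antitone, or a linear function (with real
coefficients) of the binary digits of the integer. The `j`-th digit of `a` is `a / 2 ^ j % 2`
(two's complement, so `a` may be negative). -/
def Tame (φ : ℤ → ℝ) : Prop :=
  Monotone φ ∨ Antitone φ ∨
    ∃ (W : ℕ) (l : ℕ → ℝ), ∀ a : ℤ, φ a = ∑ j ∈ range W, l j * ((a / 2 ^ j % 2 : ℤ) : ℝ)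

/-- A test: the inequality `θ (x none) < ∑ i, φ i (x (some i))`, where `x (some i)` is the `i`-th of
the first `n` numbers and `x none` is the list of the last `n` numbers. -/
structure Test (n : ℕ) where
  φ : Fin n → ℤ → ℝ
  θ : (Fin n → ℤ) → ℝ
  tame : ∀ i, Tame (φ i)

/-- The result of the test. -/
noncomputable def Test.eval {n : ℕ} (T : Test n) (x : ∀ i, Item n n i) : Bool :=
  decide (T.θ (x none) < ∑ i, T.φ i (x (some i)))

open Classical in
/-- How many of the first `n` numbers have an influence on the sum of the test? -/
noncomputable def Test.supp {n : ℕ} (T : Test n) : ℕ :=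
  (univ.filter (fun i => ∃ a b : ℤ, T.φ i a ≠ T.φ i b)).card

/-- A circuit with `s` gates. The gate `j` adds tame functions of the first `n` numbers and the real
weights `wt j i` of the gates `i < j` with the value `true`, and compares the sum with a threshold,
which is an arbitrary function of the last `n` numbers. The output of the circuit is a function of
the last `n` numbers and of the values of the gates. -/
structure Circuit (n s : ℕ) where
  gate : Fin s → Test n
  wt : Fin s → Fin s → ℝ
  top : (Fin n → ℤ) → (Fin s → Bool) → Bool

/-- The value of the gate `j`. -/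
noncomputable def Circuit.val {n s : ℕ} (C : Circuit n s) (x : ∀ i, Item n n i) (j : Fin s) :
    Bool :=
  decide ((C.gate j).θ (x none) < ∑ i, (C.gate j).φ i (x (some i)) +
    ∑ i : Fin s, if h : i < j then (if C.val x i then C.wt j i else 0) else 0)
termination_by j.val
decreasing_by all_goals exact h

/-- The output of the circuit. -/
noncomputable def Circuit.eval {n s : ℕ} (C : Circuit n s) (x : ∀ i, Item n n i) : Bool :=
  C.top (x none) (C.val x)

/-- The gate `j` has no wires from other gates. -/
def Circuit.Bottom {n s : ℕ} (C : Circuit n s) (j : Fin s) : Prop := ∀ i, i < j → C.wt j i = 0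

open Classical in
/-- The number of the gates with wires from other gates. -/
noncomputable def Circuit.upper {n s : ℕ} (C : Circuit n s) : ℕ :=
  (univ.filter (fun j => ¬ C.Bottom j)).card

open Classical in
/-- The sum over the gates without wires from other gates of the square root of the number of the
first `n` numbers which have an influence on the sum of the gate. -/
noncomputable def Circuit.sqrtSupp {n s : ℕ} (C : Circuit n s) : ℝ :=
  ∑ j ∈ univ.filter (fun j => C.Bottom j), √((C.gate j).supp : ℝ)

/-- The function `h` (of the values of the gates, for all values of `b`) has at most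
`D ^ (|A| + 1)` subfunctions on every set `A` of gates. -/
def FewSub {B : Type} {s : ℕ} (D : ℕ) (h : B → (Fin s → Bool) → Bool) : Prop :=
  ∀ A : Finset (Fin s), ∃ S : Finset ((Fin s → Bool) → Bool), S.card ≤ D ^ (A.card + 1) ∧
    ∀ (b : B) (ρ : Fin s → Bool), (fun u => h b (A.piecewise u ρ)) ∈ S

end Pool.Agent.L0h73.LT
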