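import Pool.Agent.L0h73.LT.Defs

set_option autoImplicit false

/-! # The inputs -/

namespace Pool.Agent.L0h73.LT

open Finset Pool.Agent.TH697.Form.ThreeSum Pool.Agent.TH457.Ary.ZeroSum

/-- the unit of length -/
def UU (n k : ℕ) : ℤ := 2 ^ (k + 1) * (n + 1)

/-- the numbers of the first half -/
def av (n k : ℕ) (m : ℤ) (y : ℕ) : ℤ := 8 * UU n k + m * 2 ^ (k + 1) + y

/-- the multiple of a junk number -/
def jm {n : ℕ} (i : Fin n) (t : Bool) : ℤ := if t then ((i : ℕ) : ℤ) + 1 else -(((i : ℕ) : ℤ) + 1)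

/-- the numbers of the second half -/
def bv (n k : ℕ) (z : Fin (2 ^ k) → Bool) (j : Fin n) : ℤ :=
  if h : (j : ℕ) < 2 ^ k then
    (if z ⟨j, h⟩ then 32 * UU n k - (j : ℕ) else 34 * UU n k - (j : ℕ))
  else if (j : ℕ) = 2 ^ k then -(40 * UU n k) else 128 * UU n k + (j : ℕ)

/-- the input -/
def inp (n k : ℕ) (z : Fin (2 ^ k) → Bool) (i₀ : Fin n) (ω : Fin n → Bool × Fin (2 ^ k))
    (y : Fin (2 ^ k)) : ∀ i, Item n n i
  | none => bv n k z
  | some i => if i = i₀ then av n k 0 y else av n k (jm i (ω i).1) (ω i).2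

theorem UU_gt {n k : ℕ} : (2 : ℤ) ^ (k + 1) ≤ UU n k := by
  unfold UU
  have h : (0 : ℤ) < 2 ^ (k + 1) := by positivity
  nlinarith

theorem av_bounds {n k : ℕ} {m : ℤ} {y : ℕ} (hm : |m| ≤ n) (hy : y < 2 ^ k) :
    7 * UU n k ≤ av n k m y ∧ av n k m y ≤ 9 * UU n k := by
  have h0 : (0 : ℤ) < 2 ^ k := by positivity
  have h1 : ((y : ℕ) : ℤ) < 2 ^ k := by exact_mod_cast hy
  have h2 : (0 : ℤ) ≤ ((y : ℕ) : ℤ) := by positivity
  obtain ⟨h3, h4⟩ := abs_le.1 hm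
  have e : (2 : ℤ) ^ (k + 1) = 2 * 2 ^ k := by rw [pow_succ]; ring
  unfold av UU
  rw [e]
  constructor <;> nlinarith

theorem av_inj {n k : ℕ} {m m' : ℤ} {y y' : ℕ} (hy : y < 2 ^ k) (hy' : y' < 2 ^ k)
    (h : av n k m y = av n k m' y') : m = m' ∧ y = y' := by
  have h0 : (0 : ℤ) < 2 ^ k := by positivity
  have h1 : ((y : ℕ) : ℤ) < 2 ^ k := by exact_mod_cast hy
  have h1' : ((y' : ℕ) : ℤ) < 2 ^ k := by exact_mod_cast hy'
  have h2 : (0 : ℤ) ≤ ((y : ℕ) : ℤ) := by positivity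
  have h2' : (0 : ℤ) ≤ ((y' : ℕ) : ℤ) := by positivity
  have e : (2 : ℤ) ^ (k + 1) = 2 * 2 ^ k := by rw [pow_succ]; ring
  unfold av at h
  rw [e] at h
  have hm : m = m' := by
    by_contra hne
    rcases lt_or_gt_of_ne hne with hlt | hlt
    · have : m + 1 ≤ m' := hlt
      nlinarith
    · have : m' + 1 ≤ m := hlt
      nlinarith
  subst hm
  exact ⟨rfl, by exact_mod_cast (by linarith : ((y : ℕ) : ℤ) = y')⟩

theorem jm_abs {n : ℕ} (i : Fin n) (t : Bool) : |jm i t| ≤ n ∧ jm i t ≠ 0 := by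
  have h1 : (((i : ℕ) : ℤ)) + 1 ≤ n := by have := i.2; exact_mod_cast this
  have h2 : (0 : ℤ) ≤ ((i : ℕ) : ℤ) := by positivity
  unfold jm
  cases t
  · simp only [Bool.false_eq_true, if_false]
    refine ⟨?_, by omega⟩
    rw [abs_neg, abs_of_nonneg (by omega)]
    exact h1
  · simp only [if_true]
    refine ⟨?_, by omega⟩
    rw [abs_of_nonneg (by omega)]
    exact h1

theorem jm_inj {n : ℕ} {i i' : Fin n} {t t' : Bool} (h : jm i t = jm i' t') : i = i' := by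
  have h2 : (0 : ℤ) ≤ ((i : ℕ) : ℤ) := by positivity
  have h3 : (0 : ℤ) ≤ ((i' : ℕ) : ℤ) := by positivity
  unfold jm at h
  apply Fin.ext
  cases t <;> cases t' <;> simp only [Bool.false_eq_true, if_false, if_true] at h <;> omega

section

variable {n k : ℕ} (z : Fin (2 ^ k) → Bool) (i₀ : Fin n) (ω : Fin n → Bool × Fin (2 ^ k))
  (y : Fin (2 ^ k))

/-- the numbers of the first half -/
theorem first (i : Fin n) : ∃ (m : ℤ) (v : ℕ), nums (inp n k z i₀ ω y) (.inl i) = av n k m v ∧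
    |m| ≤ n ∧ v < 2 ^ k ∧ (m = 0 → i = i₀ ∧ v = y) ∧ (i = i₀ → m = 0) ∧
    (m ≠ 0 → ∃ t, m = jm i t) := by
  by_cases h : i = i₀
  · refine ⟨0, y, ?_, by simp, y.2, fun _ => ⟨h, rfl⟩, fun _ => rfl, fun h => absurd rfl h⟩
    simp [nums, inp, h]
  · refine ⟨jm i (ω i).1, (ω i).2, ?_, (jm_abs i _).1, (ω i).2.2,
      fun h0 => absurd h0 (jm_abs i _).2, fun h' => absurd h' h, fun _ => ⟨_, rfl⟩⟩
    simp [nums, inp, h]

/-- all numbers -/
theorem desc (p : Fin n ⊕ Fin n) :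
    (∃ i, p = .inl i ∧ 7 * UU n k ≤ nums (inp n k z i₀ ω y) p ∧
      nums (inp n k z i₀ ω y) p ≤ 9 * UU n k) ∨
    (∃ j : Fin n, ∃ h : (j : ℕ) < 2 ^ k, p = .inr j ∧
      ((z ⟨j, h⟩ = true ∧ nums (inp n k z i₀ ω y) p = 32 * UU n k - (j : ℕ)) ∨
      (z ⟨j, h⟩ = false ∧ nums (inp n k z i₀ ω y) p = 34 * UU n k - (j : ℕ)))) ∨
    (∃ j : Fin n, p = .inr j ∧ (j : ℕ) = 2 ^ k ∧ nums (inp n k z i₀ ω y) p = -(40 * UU n k)) ∨
    (∃ j : Fin n, p = .inr j ∧ 2 ^ k < (j : ℕ) ∧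
      nums (inp n k z i₀ ω y) p = 128 * UU n k + (j : ℕ)) := by
  rcases p with i | j
  · left
    obtain ⟨m, v, h1, h2, h3, -⟩ := first z i₀ ω y i
    obtain ⟨h4, h5⟩ := av_bounds h2 h3
    exact ⟨i, rfl, by rw [h1]; exact h4, by rw [h1]; exact h5⟩
  · right
    have e : nums (inp n k z i₀ ω y) (.inr j) = bv n k z j := rfl
    rw [e]
    unfold bv
    by_cases h : (j : ℕ) < 2 ^ k
    · left
      refine ⟨j, h, rfl, ?_⟩
      rw [dif_pos h]
      cases hz : z ⟨j, h⟩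
      · right; simp
      · left; simp
    · right
      rw [dif_neg h]
      by_cases h' : (j : ℕ) = 2 ^ k
      · left
        exact ⟨j, rfl, h', by rw [if_pos h']⟩
      · right
        exact ⟨j, rfl, by omega, by rw [if_neg h']⟩

theorem valid_inp (hk : 2 ^ k + 1 ≤ n) (hn : 40 ≤ n) : Valid n n (inp n k z i₀ ω y) := by
  have hU := UU_gt (n := n) (k := k)
  have h2k : (0 : ℤ) < 2 ^ k := by positivity
  have e : (2 : ℤ) ^ (k + 1) = 2 * 2 ^ k := by rw [pow_succ]; ring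
  constructor
  · intro p q h
    have dp := desc z i₀ ω y p
    have dq := desc z i₀ ω y q
    rw [← h] at dq
    rcases dp with ⟨i, hp, p1, p2⟩ | ⟨j, hj, hp, p1⟩ | ⟨j, hp, hj, p1⟩ | ⟨j, hp, hj, p1⟩ <;>
    rcases dq with ⟨i', hq, q1, q2⟩ | ⟨j', hj', hq, q1⟩ | ⟨j', hq, hj', q1⟩ | ⟨j', hq, hj', q1⟩
    · subst hp hq
      obtain ⟨m, v, h1, h2, h3, h4, h5, h6⟩ := first z i₀ ω y i
      obtain ⟨m', v', h1', h2', h3', h4', h5', h6'⟩ := first z i₀ ω y i'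
      rw [h1, h1'] at h
      obtain ⟨hm, hv⟩ := av_inj h3 h3' h
      by_cases h0 : m = 0
      · rw [(h4 h0).1, (h4' (hm ▸ h0)).1]
      · obtain ⟨t, ht⟩ := h6 h0
        obtain ⟨t', ht'⟩ := h6' (hm ▸ h0)
        rw [jm_inj (by rw [← ht, hm, ht'] : jm i t = jm i' t')]
    · exfalso
      have hj2 : ((j' : ℕ) : ℤ) < 2 ^ k := by exact_mod_cast hj'
      rcases q1 with ⟨-, q1⟩ | ⟨-, q1⟩ <;> linarith
    · exfalso; linarith
    · exfalso
      have : (0 : ℤ) ≤ ((j' : ℕ) : ℤ) := by positivity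
      linarith
    · exfalso
      have hj2 : ((j : ℕ) : ℤ) < 2 ^ k := by exact_mod_cast hj
      rcases p1 with ⟨-, p1⟩ | ⟨-, p1⟩ <;> linarith
    · have hj2 : ((j : ℕ) : ℤ) < 2 ^ k := by exact_mod_cast hj
      have hj2' : ((j' : ℕ) : ℤ) < 2 ^ k := by exact_mod_cast hj'
      have hj3 : (0 : ℤ) ≤ ((j : ℕ) : ℤ) := by positivity
      have hj3' : (0 : ℤ) ≤ ((j' : ℕ) : ℤ) := by positivity
      have : ((j : ℕ) : ℤ) = ((j' : ℕ) : ℤ) := by
        rcases p1 with ⟨-, p1⟩ | ⟨-, p1⟩ <;> rcases q1 with ⟨-, q1⟩ | ⟨-, q1⟩ <;> linarith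
      have : j = j' := Fin.ext (by exact_mod_cast this)
      rw [hp, hq, this]
    · exfalso
      have hj2 : ((j : ℕ) : ℤ) < 2 ^ k := by exact_mod_cast hj
      rcases p1 with ⟨-, p1⟩ | ⟨-, p1⟩ <;> linarith
    · exfalso
      have hj2 : (0 : ℤ) ≤ ((j : ℕ) : ℤ) := by positivity
      have : (0 : ℤ) ≤ ((j' : ℕ) : ℤ) := by positivity
      rcases p1 with ⟨-, p1⟩ | ⟨-, p1⟩ <;> linarith
    · exfalso; linarith
    · exfalso
      have hj2 : ((j' : ℕ) : ℤ) < 2 ^ k := by exact_mod_cast hj'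
      rcases q1 with ⟨-, q1⟩ | ⟨-, q1⟩ <;> linarith
    · have : j = j' := Fin.ext (by omega)
      rw [hp, hq, this]
    · exfalso
      have : (0 : ℤ) ≤ ((j' : ℕ) : ℤ) := by positivity
      linarith
    · exfalso
      have : (0 : ℤ) ≤ ((j : ℕ) : ℤ) := by positivity
      linarith
    · exfalso
      have : (0 : ℤ) ≤ ((j : ℕ) : ℤ) := by positivity
      have : (0 : ℤ) ≤ ((j' : ℕ) : ℤ) := by positivity
      rcases q1 with ⟨-, q1⟩ | ⟨-, q1⟩ <;> linarith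
    · exfalso
      have : (0 : ℤ) ≤ ((j : ℕ) : ℤ) := by positivity
      linarith
    · have : ((j : ℕ) : ℤ) = ((j' : ℕ) : ℤ) := by linarith
      have : j = j' := Fin.ext (by exact_mod_cast this)
      rw [hp, hq, this]
  · intro p
    have hkn : (2 : ℤ) ^ k + 1 ≤ n := by exact_mod_cast hk
    have hn' : (40 : ℤ) ≤ n := by exact_mod_cast hn
    have hUn : UU n k ≤ 2 * (n - 1) * (n + 1) := by
      unfold UU
      rw [e]
      nlinarith
    have hbig : 128 * UU n k + n ≤ ((n + n : ℕ) : ℤ) ^ 3 := by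
      push_cast
      have h1 : 256 * (n : ℤ) ^ 2 + n ≤ ((n : ℤ) + n) ^ 3 := by
        have : ((n : ℤ) + n) ^ 3 = 8 * n * n ^ 2 := by ring
        rw [this]
        nlinarith [sq_nonneg (n : ℤ)]
      nlinarith
    have hU0 : 0 < UU n k := lt_of_lt_of_le (by positivity) hU
    rcases desc z i₀ ω y p with ⟨i, hp, p1, p2⟩ | ⟨j, hj, hp, p1⟩ | ⟨j, hp, hj, p1⟩ |
      ⟨j, hp, hj, p1⟩
    · rw [abs_le]; constructor <;> linarith
    · have hj2 : ((j : ℕ) : ℤ) < 2 ^ k := by exact_mod_cast hj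
      have hj3 : (0 : ℤ) ≤ ((j : ℕ) : ℤ) := by positivity
      rw [abs_le]
      rcases p1 with ⟨-, p1⟩ | ⟨-, p1⟩ <;> constructor <;> linarith
    · rw [p1, abs_neg, abs_of_pos (by linarith)]
      linarith
    · have hj2 : ((j : ℕ) : ℤ) < n := by have := j.2; exact_mod_cast this
      have hj3 : (0 : ℤ) ≤ ((j : ℕ) : ℤ) := by positivity
      rw [p1, abs_of_pos (by linarith)]
      linarith

end

end Pool.Agent.L0h73.LT
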