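import Pool.Agent.L0h73.LT.Inst

set_option autoImplicit false

/-! # The answer to the inputs -/

namespace Pool.Agent.L0h73.LT

open Finset Pool.Agent.TH697.Form.ThreeSum Pool.Agent.TH457.Ary.ZeroSum

variable {n k : ℕ} (z : Fin (2 ^ k) → Bool) (i₀ : Fin n) (ω : Fin n → Bool × Fin (2 ^ k))
  (y : Fin (2 ^ k))

theorem key_ab (i j : Fin n) (hj : (j : ℕ) < 2 ^ k)
    (hq : ((z ⟨j, hj⟩ = true ∧ nums (inp n k z i₀ ω y) (.inr j) = 32 * UU n k - (j : ℕ)) ∨
      (z ⟨j, hj⟩ = false ∧ nums (inp n k z i₀ ω y) (.inr j) = 34 * UU n k - (j : ℕ))))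
    (h : nums (inp n k z i₀ ω y) (.inl i) + nums (inp n k z i₀ ω y) (.inr j) = 40 * UU n k) :
    z y = true := by
  obtain ⟨m, v, h1, h2, h3, h4, -⟩ := first z i₀ ω y i
  have hU := UU_gt (n := n) (k := k)
  have h2k : (0 : ℤ) < 2 ^ k := by positivity
  have e : (2 : ℤ) ^ (k + 1) = 2 * 2 ^ k := by rw [pow_succ]; ring
  have hj2 : ((j : ℕ) : ℤ) < 2 ^ k := by exact_mod_cast hj
  have hj3 : (0 : ℤ) ≤ ((j : ℕ) : ℤ) := by positivity
  have hv2 : ((v : ℕ) : ℤ) < 2 ^ k := by exact_mod_cast h3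
  have hv3 : (0 : ℤ) ≤ ((v : ℕ) : ℤ) := by positivity
  obtain ⟨hm1, hm2⟩ := abs_le.1 h2
  rw [h1] at h
  unfold av at h
  rcases hq with ⟨hz, hq⟩ | ⟨-, hq⟩
  · rw [hq] at h
    have h5 : m * 2 ^ (k + 1) + v = (j : ℕ) := by linarith
    have hm : m = 0 := by
      by_contra hne
      rcases lt_or_gt_of_ne hne with hlt | hlt
      · have : m + 1 ≤ 0 := hlt
        nlinarith
      · have : 1 ≤ m := hlt
        nlinarith
    obtain ⟨-, hvy⟩ := h4 hm
    rw [hm] at h5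
    have h6 : ((v : ℕ) : ℤ) = (j : ℕ) := by linarith
    have h7 : (y : ℕ) = (j : ℕ) := by rw [← hvy]; exact_mod_cast h6
    have h8 : y = ⟨j, hj⟩ := Fin.ext h7
    rw [h8]; exact hz
  · exfalso
    rw [hq] at h
    have h5 : m * 2 ^ (k + 1) + v = (j : ℕ) - 2 * UU n k := by linarith
    have h6 : -((n : ℤ) * 2 ^ (k + 1)) ≤ m * 2 ^ (k + 1) := by nlinarith
    have h7 : UU n k = n * 2 ^ (k + 1) + 2 ^ (k + 1) := by unfold UU; ring
    linarith

theorem key (p q : Fin n ⊕ Fin n)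
    (h : nums (inp n k z i₀ ω y) p + nums (inp n k z i₀ ω y) q = 40 * UU n k) :
    z y = true := by
  have hU := UU_gt (n := n) (k := k)
  have h2k : (0 : ℤ) < 2 ^ k := by positivity
  have e : (2 : ℤ) ^ (k + 1) = 2 * 2 ^ k := by rw [pow_succ]; ring
  have hU0 : 0 < UU n k := by linarith
  have dp := desc z i₀ ω y p
  have dq := desc z i₀ ω y q
  have hlt : ∀ j : Fin n, (j : ℕ) < 2 ^ k → ((j : ℕ) : ℤ) < 2 ^ k := by
    intro j hj; exact_mod_cast hj
  have hnn : ∀ j : Fin n, (0 : ℤ) ≤ ((j : ℕ) : ℤ) := by intro j; positivity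
  rcases dp with ⟨i, hp, p1, p2⟩ | ⟨j, hj, hp, p1⟩ | ⟨j, hp, hj, p1⟩ | ⟨j, hp, hj, p1⟩
  · rcases dq with ⟨i', hq, q1, q2⟩ | ⟨j', hj', hq, q1⟩ | ⟨j', hq, hj', q1⟩ | ⟨j', hq, hj', q1⟩
    · exfalso; linarith
    · subst hp hq
      exact key_ab z i₀ ω y i j' hj' q1 h
    · exfalso; linarith
    · exfalso
      have := hnn j'
      linarith
  · rcases dq with ⟨i', hq, q1, q2⟩ | ⟨j', hj', hq, q1⟩ | ⟨j', hq, hj', q1⟩ | ⟨j', hq, hj', q1⟩
    · subst hp hq
      exact key_ab z i₀ ω y i' j hj p1 (by linarith)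
    · exfalso
      have h1 := hlt j hj
      have h2 := hlt j' hj'
      rcases p1 with ⟨-, p1⟩ | ⟨-, p1⟩ <;> rcases q1 with ⟨-, q1⟩ | ⟨-, q1⟩ <;> linarith
    · exfalso
      have h1 := hnn j
      rcases p1 with ⟨-, p1⟩ | ⟨-, p1⟩ <;> linarith
    · exfalso
      have h1 := hlt j hj
      have h2 := hnn j'
      rcases p1 with ⟨-, p1⟩ | ⟨-, p1⟩ <;> linarith
  · rcases dq with ⟨i', hq, q1, q2⟩ | ⟨j', hj', hq, q1⟩ | ⟨j', hq, hj', q1⟩ | ⟨j', hq, hj', q1⟩
    · exfalso; linarith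
    · exfalso
      have h1 := hnn j'
      rcases q1 with ⟨-, q1⟩ | ⟨-, q1⟩ <;> linarith
    · exfalso; linarith
    · exfalso
      have := hnn j'
      linarith
  · rcases dq with ⟨i', hq, q1, q2⟩ | ⟨j', hj', hq, q1⟩ | ⟨j', hq, hj', q1⟩ | ⟨j', hq, hj', q1⟩
    · exfalso
      have := hnn j
      linarith
    · exfalso
      have h1 := hlt j' hj'
      have h2 := hnn j
      rcases q1 with ⟨-, q1⟩ | ⟨-, q1⟩ <;> linarith
    · exfalso
      have := hnn j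
      linarith
    · exfalso
      have := hnn j
      have := hnn j'
      linarith

theorem pos_or (p : Fin n ⊕ Fin n) : 0 < nums (inp n k z i₀ ω y) p ∨
    nums (inp n k z i₀ ω y) p = -(40 * UU n k) := by
  have hU := UU_gt (n := n) (k := k)
  have h2k : (0 : ℤ) < 2 ^ k := by positivity
  have e : (2 : ℤ) ^ (k + 1) = 2 * 2 ^ k := by rw [pow_succ]; ring
  rcases desc z i₀ ω y p with ⟨i, hp, p1, p2⟩ | ⟨j, hj, hp, p1⟩ | ⟨j, hp, hj, p1⟩ |
    ⟨j, hp, hj, p1⟩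
  · left; linarith
  · left
    have h1 : ((j : ℕ) : ℤ) < 2 ^ k := by exact_mod_cast hj
    rcases p1 with ⟨-, p1⟩ | ⟨-, p1⟩ <;> linarith
  · right; exact p1
  · left
    have h1 : (0 : ℤ) ≤ ((j : ℕ) : ℤ) := by positivity
    linarith

theorem zeroSum_inp (hk : 2 ^ k + 1 ≤ n) : zeroSum n (inp n k z i₀ ω y) = z y := by
  unfold zeroSum
  rw [Bool.eq_iff_iff, decide_eq_true_iff]
  constructor
  · rintro ⟨p, q, r, -, -, -, h⟩
    rcases pos_or z i₀ ω y p with hp | hp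
    · rcases pos_or z i₀ ω y q with hq | hq
      · rcases pos_or z i₀ ω y r with hr | hr
        · exfalso; linarith
        · exact key z i₀ ω y p q (by linarith)
      · exact key z i₀ ω y p r (by linarith)
    · exact key z i₀ ω y q r (by linarith)
  · intro hz
    have hy : (y : ℕ) < 2 ^ k := y.2
    refine ⟨.inl i₀, .inr ⟨y, by omega⟩, .inr ⟨2 ^ k, by omega⟩, by simp, by simp, ?_, ?_⟩
    · intro h
      rw [Sum.inr.injEq, Fin.mk.injEq] at h
      omega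
    · have h1 : nums (inp n k z i₀ ω y) (.inl i₀) = 8 * UU n k + (y : ℕ) := by
        simp [nums, inp, av]
      have h2 : nums (inp n k z i₀ ω y) (.inr ⟨y, by omega⟩) = 32 * UU n k - (y : ℕ) := by
        have e : nums (inp n k z i₀ ω y) (.inr ⟨y, by omega⟩) = bv n k z ⟨y, by omega⟩ := rfl
        rw [e]
        unfold bv
        rw [dif_pos hy]
        have e2 : z ⟨(y : ℕ), hy⟩ = true := hz
        simp [e2]
      have h3 : nums (inp n k z i₀ ω y) (.inr ⟨2 ^ k, by omega⟩) = -(40 * UU n k) := by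
        have e : nums (inp n k z i₀ ω y) (.inr ⟨2 ^ k, by omega⟩) = bv n k z ⟨2 ^ k, by omega⟩ := rfl
        rw [e]
        unfold bv
        simp
      rw [h1, h2, h3]
      ring

end Pool.Agent.L0h73.LT
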