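import Pool.Agent.L0h73.LT.Inst2

set_option autoImplicit false

/-! # Tame functions on the numbers of the first half -/

namespace Pool.Agent.L0h73.LT

open Finset

/-- the first half of the claim about tame functions -/
def Good (n k : ℕ) (φ : ℤ → ℝ) (i : Fin n) (d : ℝ) (σ : Equiv.Perm (Bool × Fin (2 ^ k))) : Prop :=
  0 ≤ d ∧ (∀ w, d ≤ |φ (av n k (jm i (σ w).1) (σ w).2) - φ (av n k (jm i w.1) w.2)|) ∧
    ∀ y y' : Fin (2 ^ k), φ (av n k 0 y) - φ (av n k 0 y') ≤ k * d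

theorem good_mono {n k : ℕ} (hk : 1 ≤ k) (φ : ℤ → ℝ) (hφ : Monotone φ) (i : Fin n) :
    ∃ d σ, Good n k φ i d σ := by
  have h2k : (0 : ℤ) < 2 ^ k := by positivity
  have e : (2 : ℤ) ^ (k + 1) = 2 * 2 ^ k := by rw [pow_succ]; ring
  have hi : (0 : ℤ) ≤ ((i : ℕ) : ℤ) := by positivity
  set a₀ : ℤ := 8 * UU n k with ha₀
  set d : ℝ := φ (a₀ + 2 ^ k) - φ a₀ with hd
  have hd0 : 0 ≤ d := sub_nonneg.2 (hφ (by linarith))
  refine ⟨d, Equiv.prodCongr Equiv.boolNot (Equiv.refl _), hd0, ?_, ?_⟩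
  · have key : ∀ v : Fin (2 ^ k), d ≤ φ (av n k (jm i true) v) - φ (av n k (jm i false) v) := by
      intro v
      have hv1 : ((v : ℕ) : ℤ) < 2 ^ k := by exact_mod_cast v.2
      have hv2 : (0 : ℤ) ≤ ((v : ℕ) : ℤ) := by positivity
      have h1 : a₀ + 2 ^ k ≤ av n k (jm i true) v := by
        unfold av jm
        simp only [if_true]
        rw [e]
        nlinarith
      have h2 : av n k (jm i false) v ≤ a₀ := by
        unfold av jm
        simp only [Bool.false_eq_true, if_false]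
        rw [e]
        nlinarith
      have h3 := hφ h1
      have h4 := hφ h2
      linarith
    rintro ⟨t, v⟩
    cases t
    · have h1 : ((Equiv.prodCongr Equiv.boolNot (Equiv.refl (Fin (2 ^ k)))) (false, v)) = (true, v) := rfl
      rw [h1]
      exact (key v).trans (le_abs_self _)
    · have h1 : ((Equiv.prodCongr Equiv.boolNot (Equiv.refl (Fin (2 ^ k)))) (true, v)) = (false, v) := rfl
      rw [h1, abs_sub_comm]
      exact (key v).trans (le_abs_self _)
  · intro y y'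
    have hv1 : ((y : ℕ) : ℤ) < 2 ^ k := by exact_mod_cast y.2
    have hv2 : (0 : ℤ) ≤ ((y' : ℕ) : ℤ) := by positivity
    have h1 : av n k 0 y ≤ a₀ + 2 ^ k := by unfold av; linarith
    have h2 : a₀ ≤ av n k 0 y' := by unfold av; linarith
    have h3 := hφ h1
    have h4 := hφ h2
    have h5 : (1 : ℝ) ≤ k := by exact_mod_cast hk
    nlinarith

theorem good_anti {n k : ℕ} (hk : 1 ≤ k) (φ : ℤ → ℝ) (hφ : Antitone φ) (i : Fin n) :
    ∃ d σ, Good n k φ i d σ := by
  obtain ⟨d, σ, h1, h2, h3⟩ := good_mono hk (fun a => -φ a) hφ.neg i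
  refine ⟨d, σ, h1, fun w => ?_, fun y y' => ?_⟩
  · have := h2 w
    rw [show -φ (av n k (jm i (σ w).1) (σ w).2) - -φ (av n k (jm i w.1) w.2) =
      -(φ (av n k (jm i (σ w).1) (σ w).2) - φ (av n k (jm i w.1) w.2)) by ring, abs_neg] at this
    exact this
  · have := h3 y' y
    linarith

/-- the low digits -/
theorem digit_low {n k : ℕ} (m : ℤ) (y j : ℕ) (hj : j < k) :
    (av n k m y) / 2 ^ j % 2 = ((y / 2 ^ j % 2 : ℕ) : ℤ) := by
  have e : av n k m y = y + 2 ^ j * (2 * (2 ^ (k - j - 1) * (16 * (n + 1) + 2 * m))) := by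
    have h1 : (2 : ℤ) ^ k = 2 ^ j * (2 * 2 ^ (k - j - 1)) := by
      rw [← pow_succ', ← pow_add]
      congr 1
      omega
    unfold av UU
    rw [pow_succ, h1]
    ring
  rw [e, Int.add_mul_ediv_left _ _ (by positivity), Int.add_mul_emod_self_left]
  push_cast
  rfl

/-- the high digits -/
theorem digit_high {n k : ℕ} (m : ℤ) (y j : ℕ) (hy : y < 2 ^ k) (hj : k ≤ j) :
    (av n k m y) / 2 ^ j % 2 = (16 * (n + 1) + 2 * m) / 2 ^ (j - k) % 2 := by
  have e : av n k m y = y + 2 ^ k * (16 * (n + 1) + 2 * m) := by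
    unfold av UU
    rw [pow_succ]
    ring
  have e2 : (2 : ℤ) ^ j = 2 ^ k * 2 ^ (j - k) := by
    rw [← pow_add]
    congr 1
    omega
  have h0 : ((y : ℕ) : ℤ) / 2 ^ k = 0 :=
    Int.ediv_eq_zero_of_lt (by positivity) (by exact_mod_cast hy)
  rw [e2, ← Int.ediv_ediv_of_nonneg (by positivity), e,
    Int.add_mul_ediv_left _ _ (by positivity), h0, zero_add]

/-- flipping a digit -/
def flipDigit (k j : ℕ) (hj : j < k) : Equiv.Perm (Fin (2 ^ k)) where
  toFun y := ⟨y.1 ^^^ 2 ^ j, Nat.xor_lt_two_pow y.2 (Nat.pow_lt_pow_right (by norm_num) hj)⟩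
  invFun y := ⟨y.1 ^^^ 2 ^ j, Nat.xor_lt_two_pow y.2 (Nat.pow_lt_pow_right (by norm_num) hj)⟩
  left_inv y := by
    apply Fin.ext
    simp
  right_inv y := by
    apply Fin.ext
    simp

theorem flip_other (y j i : ℕ) (h : i ≠ j) : (y ^^^ 2 ^ j) / 2 ^ i % 2 = y / 2 ^ i % 2 := by
  rw [← Nat.toNat_testBit, ← Nat.toNat_testBit, Nat.testBit_xor, Nat.testBit_two_pow]
  have : decide (j = i) = false := by simp [Ne.symm h]
  rw [this, Bool.xor_false]

theorem flip_same (y j : ℕ) : (y ^^^ 2 ^ j) / 2 ^ j % 2 + y / 2 ^ j % 2 = 1 := by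
  rw [← Nat.toNat_testBit, ← Nat.toNat_testBit, Nat.testBit_xor, Nat.testBit_two_pow]
  cases y.testBit j <;> simp

theorem good_digits {n k : ℕ} (φ : ℤ → ℝ) (W : ℕ) (l : ℕ → ℝ)
    (hφ : ∀ a : ℤ, φ a = ∑ j ∈ range W, l j * ((a / 2 ^ j % 2 : ℤ) : ℝ)) (i : Fin n) :
    ∃ d σ, Good n k φ i d σ := by
  classical
  set J := (range W).filter (fun j => j < k) with hJ
  set J' := (range W).filter (fun j => ¬ j < k) with hJ'
  set hi : ℤ → ℝ := fun m => ∑ j ∈ J', l j * (((16 * (n + 1) + 2 * m) / 2 ^ (j - k) % 2 : ℤ) : ℝ)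
    with hhi
  set lo : ℕ → ℝ := fun y => ∑ j ∈ J, l j * ((y / 2 ^ j % 2 : ℕ) : ℝ) with hlo
  have hval : ∀ (m : ℤ) (y : ℕ), y < 2 ^ k → φ (av n k m y) = lo y + hi m := by
    intro m y hy
    rw [hφ, ← Finset.sum_filter_add_sum_filter_not (range W) (fun j => j < k)]
    congr 1
    · apply sum_congr rfl
      intro j hj
      rw [mem_filter] at hj
      rw [digit_low m y j hj.2]
      push_cast
      rfl
    · apply sum_congr rfl
      intro j hj
      rw [mem_filter] at hj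
      rw [digit_high m y j hy (by omega)]
  have hcardJ : J.card ≤ k := by
    calc J.card ≤ (range k).card := card_le_card (fun j hj => by
          rw [hJ, mem_filter] at hj; exact mem_range.2 hj.2)
      _ = k := card_range k
  by_cases hne : J.Nonempty
  · obtain ⟨j, hj, hmax⟩ := exists_max_image J (fun j => |l j|) hne
    have hjk : j < k := by rw [hJ, mem_filter] at hj; exact hj.2
    refine ⟨|l j|, Equiv.prodCongr (Equiv.refl _) (flipDigit k j hjk), abs_nonneg _, ?_, ?_⟩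
    · rintro ⟨t, v⟩
      have h1 : ((Equiv.prodCongr (Equiv.refl Bool) (flipDigit k j hjk)) (t, v)) =
        (t, flipDigit k j hjk v) := rfl
      rw [h1]
      simp only
      rw [hval _ _ (flipDigit k j hjk v).2, hval _ _ v.2]
      have h2 : lo (flipDigit k j hjk v) + hi (jm i t) - (lo v + hi (jm i t)) =
          l j * ((((v : ℕ) ^^^ 2 ^ j) / 2 ^ j % 2 : ℕ) : ℝ) - l j * (((v : ℕ) / 2 ^ j % 2 : ℕ) : ℝ) := by
        have h3 : lo (flipDigit k j hjk v) - lo v =
          ∑ i ∈ J, (l i * ((((v : ℕ) ^^^ 2 ^ j) / 2 ^ i % 2 : ℕ) : ℝ) -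
            l i * (((v : ℕ) / 2 ^ i % 2 : ℕ) : ℝ)) := by
          rw [sum_sub_distrib]
          rfl
        rw [sum_eq_single j] at h3
        · linarith
        · intro i _ hi
          rw [flip_other _ _ _ hi]
          ring
        · intro h; exact absurd hj h
      rw [h2, ← mul_sub, abs_mul]
      have h4 := flip_same v j
      have h5 : |(((((v : ℕ) ^^^ 2 ^ j) / 2 ^ j % 2 : ℕ)) : ℝ) - (((v : ℕ) / 2 ^ j % 2 : ℕ) : ℝ)| = 1 := by
        have h6 : ((v : ℕ) ^^^ 2 ^ j) / 2 ^ j % 2 = 0 ∧ (v : ℕ) / 2 ^ j % 2 = 1 ∨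
          ((v : ℕ) ^^^ 2 ^ j) / 2 ^ j % 2 = 1 ∧ (v : ℕ) / 2 ^ j % 2 = 0 := by omega
        rcases h6 with ⟨h6, h7⟩ | ⟨h6, h7⟩
        · rw [h6, h7]; norm_num
        · rw [h6, h7]; norm_num
      rw [h5, mul_one]
    · intro y y'
      rw [hval _ _ y.2, hval _ _ y'.2]
      have h3 : lo y + hi 0 - (lo y' + hi 0) = ∑ i ∈ J, l i * ((((y : ℕ) / 2 ^ i % 2 : ℕ) : ℝ) -
          (((y' : ℕ) / 2 ^ i % 2 : ℕ) : ℝ)) := by
        simp only [hlo, mul_sub, sum_sub_distrib]
        ring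
      rw [h3]
      calc ∑ i ∈ J, l i * ((((y : ℕ) / 2 ^ i % 2 : ℕ) : ℝ) - (((y' : ℕ) / 2 ^ i % 2 : ℕ) : ℝ))
          ≤ ∑ _i ∈ J, |l j| := by
            apply sum_le_sum
            intro i hi
            refine (le_abs_self _).trans ?_
            rw [abs_mul]
            have h4 : |((((y : ℕ) / 2 ^ i % 2 : ℕ)) : ℝ) - (((y' : ℕ) / 2 ^ i % 2 : ℕ) : ℝ)| ≤ 1 := by
              have h5 : (y : ℕ) / 2 ^ i % 2 < 2 := Nat.mod_lt _ (by norm_num)
              have h6 : (y' : ℕ) / 2 ^ i % 2 < 2 := Nat.mod_lt _ (by norm_num)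
              set u := (y : ℕ) / 2 ^ i % 2
              set u' := (y' : ℕ) / 2 ^ i % 2
              interval_cases u <;> interval_cases u' <;> norm_num
            calc |l i| * _ ≤ |l i| * 1 := mul_le_mul_of_nonneg_left h4 (abs_nonneg _)
              _ = |l i| := mul_one _
              _ ≤ |l j| := hmax i hi
        _ = J.card * |l j| := by rw [sum_const, nsmul_eq_mul]
        _ ≤ k * |l j| := by
            apply mul_le_mul_of_nonneg_right _ (abs_nonneg _)
            exact_mod_cast hcardJ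
  · rw [not_nonempty_iff_eq_empty] at hne
    refine ⟨0, Equiv.refl _, le_rfl, fun w => abs_nonneg _, ?_⟩
    intro y y'
    rw [hval _ _ y.2, hval _ _ y'.2]
    have : ∀ y, lo y = 0 := by intro y; simp [hlo, hne]
    rw [this, this]
    simp

theorem good_tame {n k : ℕ} (hk : 1 ≤ k) (φ : ℤ → ℝ) (hφ : Tame φ) (i : Fin n) :
    ∃ d σ, Good n k φ i d σ := by
  rcases hφ with h | h | ⟨W, l, h⟩
  · exact good_mono hk φ h i
  · exact good_anti hk φ h i
  · exact good_digits φ W l h i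

end Pool.Agent.L0h73.LT
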